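import Mathlib
import Pool.Graph.R_seed8.H301R2.TR.GenMain
import Pool.Graph.R_pool_sql_team_seeded_1acbe0a2.Y928.QN.Pert

/-!
Continuity of the general entries `entG` of the interpolation matrix, with explicit constants.
-/

set_option autoImplicit false

namespace Pool.Agent.H70.QL

open Finset Pool.Agent.H301R2.TR Pool.Agent.Y928.QN

theorem near_prod {ι : Type*} (s : Finset ι) (x y : ι → ℂ) (B δ : ι → ℝ)
    (h : ∀ i ∈ s, Near (B i) (δ i) (x i) (y i)) :
    Near (∏ i ∈ s, B i) (∑ i ∈ s, δ i) (∏ i ∈ s, x i) (∏ i ∈ s, y i) := by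
  classical
  induction s using Finset.induction_on with
  | empty => simpa using Near.refl (B := 1) (x := 1) (by simp)
  | insert i s hi ih =>
    rw [Finset.prod_insert hi, Finset.sum_insert hi, Finset.prod_insert hi, Finset.prod_insert hi]
    exact (h i (Finset.mem_insert_self i s)).mul
      (ih (fun j hj => h j (Finset.mem_insert_of_mem hj)))

theorem near_prod_const {w : ℕ} (x y : Fin w → ℂ) (B δ : ℝ)
    (h : ∀ i, Near B δ (x i) (y i)) :
    Near (B ^ w) (w * δ) (∏ i, x i) (∏ i, y i) := by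
  have := near_prod Finset.univ x y (fun _ => B) (fun _ => δ) (fun i _ => h i)
  simpa using this

theorem near_natsum {n : ℕ} (R0 δ : ℝ) (N : ℕ) (f g : Fin n → ℂ) (m : Fin n → ℕ)
    (hf : ∀ i, Near R0 δ (f i) (g i)) (hm : ∀ i, m i ≤ N) :
    Near (n * R0 * N) δ (∑ i, f i * (m i : ℂ)) (∑ i, g i * (m i : ℂ)) := by
  have h1 : ∀ i ∈ (Finset.univ : Finset (Fin n)), Near (R0 * N) δ (f i * (m i : ℂ))
      (g i * (m i : ℂ)) := by
    intro i _
    have h2 : Near (N : ℝ) 0 (m i : ℂ) (m i : ℂ) := by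
      apply Near.refl
      rw [Complex.norm_natCast]
      exact_mod_cast hm i
    have h3 := (hf i).mul h2
    rwa [add_zero] at h3
  have h2 := near_sum Finset.univ _ _ (fun _ => R0 * N) δ h1
  simp only [Finset.sum_const, Finset.card_univ, Fintype.card_fin, nsmul_eq_mul] at h2
  rwa [← mul_assoc] at h2

theorem near_LamF (k t : ℕ) (lam lam' x y : ℂ) (A X δ1 δ2 : ℝ) (hX : 1 ≤ X)
    (h1' : 0 ≤ δ1) (h2' : 0 ≤ δ2) (hl : Near A δ1 lam lam') (h : Near X δ2 x y) :
    Near ((A + k) ^ t * X ^ k) (t * δ1 + k * δ2) (LamF lam k t x) (LamF lam' k t y) := by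
  have hA : 0 ≤ A := (norm_nonneg _).trans hl.1
  unfold LamF
  rw [add_comm A (k : ℝ), add_pow, Finset.sum_mul]
  apply near_sum
  intro j hj
  have h1 : ((k.descFactorial j : ℕ) : ℝ) ≤ (k : ℝ) ^ j := by
    exact_mod_cast Nat.descFactorial_le_pow k j
  have h2 : Near (X ^ k) (k * δ2) (x ^ (k - j)) (y ^ (k - j)) := by
    refine (h.pow (k - j)).mono (by positivity) (pow_le_pow_right₀ hX (by omega)) ?_
    have : ((k - j : ℕ) : ℝ) ≤ (k : ℝ) := by exact_mod_cast Nat.sub_le k j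
    exact mul_le_mul_of_nonneg_right this h2'
  have h3 : Near (A ^ (t - j)) (t * δ1) (lam ^ (t - j)) (lam' ^ (t - j)) := by
    refine (hl.pow (t - j)).mono (by positivity) le_rfl ?_
    have : ((t - j : ℕ) : ℝ) ≤ (t : ℝ) := by exact_mod_cast Nat.sub_le t j
    exact mul_le_mul_of_nonneg_right this h1'
  have h4 : Near (t.choose j : ℝ) 0 (t.choose j : ℂ) (t.choose j : ℂ) := by
    apply Near.refl
    rw [Complex.norm_natCast]
  have h5 : Near ((k : ℝ) ^ j) 0 (k.descFactorial j : ℂ) (k.descFactorial j : ℂ) := by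
    apply Near.refl
    rw [Complex.norm_natCast]
    exact h1
  have h6 := ((h4.mul h3).mul h5).mul h2
  have e : (t.choose j : ℝ) * A ^ (t - j) * (k : ℝ) ^ j * X ^ k =
      (k : ℝ) ^ j * A ^ (t - j) * (t.choose j : ℝ) * X ^ k := by ring
  have e2 : 0 + (t : ℝ) * δ1 + 0 + k * δ2 = t * δ1 + k * δ2 := by ring
  rw [e, e2] at h6
  exact h6

/-- the general entries are Lipschitz functions of the parameters -/
theorem entG_near {w b l : ℕ}
    {γ γ' : Fin w → Fin b → ℂ} {α α' : Fin w → Fin l → ℂ} {χ χ' : Fin b → Fin l → ℂ} {R0 δ : ℝ}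
    (hR0 : 1 ≤ R0) (hδ : 0 ≤ δ) {k : Fin w → ℕ} {m : Fin b → ℕ} {t : Fin w → ℕ} {s : Fin l → ℕ}
    (hγ : ∀ i j, Near R0 δ (γ i j) (γ' i j)) (hα : ∀ i, k i = 0 ∨ ∀ p, Near R0 δ (α i p) (α' i p))
    (hχ : ∀ j p, Near R0 δ (χ j p) (χ' j p))
    (K0 M T S : ℕ)
    (hk : ∀ i, k i ≤ K0) (hm : ∀ j, m j ≤ M) (ht : ∀ i, t i ≤ T) (hs : ∀ p, s p ≤ S) :
    Near (((1 + b * R0 * M + K0) ^ T * (1 + l * R0 * S) ^ K0) ^ w * (R0 ^ (l * (S * M))) ^ b)
      ((w * (T + K0) + b * (l * (S * M))) * δ) (entG γ α χ k m t s) (entG γ' α' χ' k m t s) := by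
  unfold entG
  have hR0' : 0 ≤ R0 := by linarith
  have hX : (1 : ℝ) ≤ 1 + l * R0 * S := by
    have : 0 ≤ l * R0 * (S : ℝ) := by positivity
    linarith
  have h1 : Near (((1 + b * R0 * M + K0) ^ T * (1 + l * R0 * S) ^ K0) ^ w)
      (w * ((T + K0) * δ))
      (∏ i, LamF (∑ j, γ i j * (m j : ℂ)) (k i) (t i) (∑ p, α i p * (s p : ℂ)))
      (∏ i, LamF (∑ j, γ' i j * (m j : ℂ)) (k i) (t i) (∑ p, α' i p * (s p : ℂ))) := by
    apply near_prod_const
    intro i
    have g1 := near_natsum R0 δ M (γ i) (γ' i) m (hγ i) hm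
    have hb : 0 ≤ b * R0 * (M : ℝ) := by positivity
    have hki : (k i : ℝ) ≤ K0 := by exact_mod_cast hk i
    have hti : (t i : ℝ) ≤ T := by exact_mod_cast ht i
    have a1 : (b * R0 * M + k i) ^ (t i) ≤ (1 + b * R0 * M + K0) ^ T := by
      calc (b * R0 * M + k i : ℝ) ^ (t i) ≤ (1 + b * R0 * M + K0) ^ (t i) := by
            apply pow_le_pow_left₀ (by positivity)
            linarith
        _ ≤ _ := pow_le_pow_right₀ (by have : (0 : ℝ) ≤ K0 := Nat.cast_nonneg _
                                       linarith) (ht i)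
    have a2 : (1 + l * R0 * (S : ℝ)) ^ (k i) ≤ (1 + l * R0 * S) ^ K0 :=
      pow_le_pow_right₀ hX (hk i)
    rcases hα i with h0 | h0
    · rw [h0, LamF_zero, LamF_zero]
      rw [h0] at a1
      have g2 := g1.pow (t i)
      refine g2.mono (by positivity) ?_ ?_
      · have a3 : (b * R0 * (M : ℝ)) ^ (t i) ≤ (1 + b * R0 * M + K0) ^ T := by
          simpa using a1
        have a4 : (1 : ℝ) ≤ (1 + l * R0 * S) ^ K0 := one_le_pow₀ hX
        exact a3.trans (le_mul_of_one_le_right (by positivity) a4)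
      · apply mul_le_mul_of_nonneg_right _ hδ
        have : (0 : ℝ) ≤ K0 := Nat.cast_nonneg _
        linarith
    · have g2 : Near (1 + l * R0 * S) δ (∑ p, α i p * (s p : ℂ)) (∑ p, α' i p * (s p : ℂ)) :=
        (near_natsum R0 δ S (α i) (α' i) s h0 hs).mono hδ (by linarith) le_rfl
      refine (near_LamF (k i) (t i) _ _ _ _ (b * R0 * M) (1 + l * R0 * S) δ δ hX hδ hδ g1 g2).mono
        (by positivity) ?_ ?_
      · gcongr
      · rw [← add_mul]
        apply mul_le_mul_of_nonneg_right _ hδ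
        linarith
  have h2 : Near ((R0 ^ (l * (S * M))) ^ b) (b * ((l * (S * M)) * δ))
      (∏ j, (∏ p, χ j p ^ s p) ^ m j) (∏ j, (∏ p, χ' j p ^ s p) ^ m j) := by
    apply near_prod_const
    intro j
    have g1 : Near ((R0 ^ S) ^ l) (l * (S * δ)) (∏ p, χ j p ^ s p) (∏ p, χ' j p ^ s p) := by
      apply near_prod_const
      intro p
      refine ((hχ j p).pow (s p)).mono (by positivity) (pow_le_pow_right₀ hR0 (hs p)) ?_
      have : (s p : ℝ) ≤ S := by exact_mod_cast hs p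
      exact mul_le_mul_of_nonneg_right this hδ
    refine (g1.pow (m j)).mono (by positivity) ?_ ?_
    · rw [← pow_mul, ← pow_mul]
      apply pow_le_pow_right₀ hR0
      calc S * (l * m j) ≤ S * (l * M) := Nat.mul_le_mul_left _ (Nat.mul_le_mul_left _ (hm j))
        _ = l * (S * M) := by ring
    · have : (m j : ℝ) ≤ M := by exact_mod_cast hm j
      calc (m j : ℝ) * (l * (S * δ)) ≤ M * (l * (S * δ)) :=
            mul_le_mul_of_nonneg_right this (by positivity)
        _ = _ := by ring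
  have h3 := h1.mul h2
  refine h3.mono (by positivity) le_rfl (le_of_eq ?_)
  ring

end Pool.Agent.H70.QL
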