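import Mathlib
import Pool.Agent.H70.QL.Near

/-!
Sizes of the general entries with separate bounds for the coefficients `γ` and for the points, and
growth of the parameters.
-/

set_option autoImplicit false

namespace Pool.Agent.H70.QL

open Finset Pool.Agent.H301R2.TR Pool.Agent.Y928.QN

theorem lamF_int2 {K : Type*} [Field K] {d1 d : ℕ} {lam x : K} (hl : IntD d1 1 lam)
    (h : IntD d 1 x) (k t K0 T : ℕ) (hk : k ≤ K0) (ht : t ≤ T) :
    IsIntegral ℤ ((d1 : K) ^ T * (d : K) ^ K0 * LamF lam k t x) := by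
  unfold LamF
  rw [Finset.mul_sum]
  apply IsIntegral.sum
  intro j hj
  have h1 : IsIntegral ℤ ((d1 : K) ^ T * lam ^ (t - j)) := by
    have := (hl.pow (t - j)).mono (b := T) (by omega)
    exact this
  have h2 : IsIntegral ℤ ((d : K) ^ K0 * x ^ (k - j)) := by
    have := (h.pow (k - j)).mono (b := K0) (by omega)
    exact this
  have e : (d1 : K) ^ T * (d : K) ^ K0 * ((t.choose j : K) * lam ^ (t - j) *
      (k.descFactorial j : K) * x ^ (k - j)) =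
      (t.choose j : K) * (k.descFactorial j : K) * ((d1 : K) ^ T * lam ^ (t - j)) *
      ((d : K) ^ K0 * x ^ (k - j)) := by ring
  rw [e]
  exact (((isIntegral_natCast' _).mul (isIntegral_natCast' _)).mul h1).mul h2

theorem entG_int2 {K : Type*} [Field K] {d1 d : ℕ} {w b l : ℕ}
    {γ : Fin w → Fin b → K} {α : Fin w → Fin l → K} {χ : Fin b → Fin l → K}
    (hγ : ∀ i j, IntD d1 1 (γ i j)) (hα : ∀ i p, IntD d 1 (α i p)) (hχ : ∀ j p, IntD d 1 (χ j p))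
    (K0 M T S : ℕ) {k : Fin w → ℕ} {m : Fin b → ℕ} {t : Fin w → ℕ} {s : Fin l → ℕ}
    (hk : ∀ i, k i ≤ K0) (hm : ∀ j, m j ≤ M) (ht : ∀ i, t i ≤ T) (hs : ∀ p, s p ≤ S) :
    IsIntegral ℤ ((((d1 ^ (w * T) * d ^ (w * K0 + b * (l * (S * M))) : ℕ)) : K) ^ 1 *
      entG γ α χ k m t s) := by
  have hnat : ∀ (d n : ℕ), IntD d 0 (n : K) := fun d n => IntD.of_int (isIntegral_natCast' n)
  have h1 : IsIntegral ℤ ((d1 : K) ^ (w * T) * (d : K) ^ (w * K0) *
      ∏ i, LamF (∑ j, γ i j * (m j : K)) (k i) (t i) (∑ p, α i p * (s p : K))) := by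
    have e : (d1 : K) ^ (w * T) * (d : K) ^ (w * K0) *
      ∏ i, LamF (∑ j, γ i j * (m j : K)) (k i) (t i) (∑ p, α i p * (s p : K)) =
      ∏ i, ((d1 : K) ^ T * (d : K) ^ K0 *
        LamF (∑ j, γ i j * (m j : K)) (k i) (t i) (∑ p, α i p * (s p : K))) := by
      rw [Finset.prod_mul_distrib, Finset.prod_const, Finset.card_univ, Fintype.card_fin, mul_pow,
        ← pow_mul, ← pow_mul, mul_comm T w, mul_comm K0 w]
    rw [e]
    apply IsIntegral.prod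
    intro i _
    have g1 : IntD d1 1 (∑ j, γ i j * (m j : K)) :=
      IntD.sum _ _ (fun j _ => (hγ i j).mul (hnat d1 (m j)))
    have g2 : IntD d 1 (∑ p, α i p * (s p : K)) :=
      IntD.sum _ _ (fun p _ => (hα i p).mul (hnat d (s p)))
    exact lamF_int2 g1 g2 (k i) (t i) K0 T (hk i) (ht i)
  have h2 : IntD d (b * (l * (S * M))) (∏ j, (∏ p, χ j p ^ s p) ^ m j) := by
    have := IntD.prod (d := d) (a := l * (S * M)) Finset.univ
      (fun j => (∏ p, χ j p ^ s p) ^ m j) ?_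
    · simpa using this
    · intro j _
      have g1 : IntD d (l * S) (∏ p, χ j p ^ s p) := by
        have := IntD.prod (d := d) (a := S) Finset.univ (fun p => χ j p ^ s p) (fun p _ =>
          ((hχ j p).pow (s p)).mono (by have := hs p; omega))
        simpa using this
      refine (g1.pow (m j)).mono ?_
      calc l * S * m j ≤ l * S * M := Nat.mul_le_mul_left _ (hm j)
        _ = _ := by ring
  unfold IntD at h2
  unfold entG
  have e : (((d1 ^ (w * T) * d ^ (w * K0 + b * (l * (S * M))) : ℕ)) : K) ^ 1 *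
      ((∏ i, LamF (∑ j, γ i j * (m j : K)) (k i) (t i) (∑ p, α i p * (s p : K))) *
        ∏ j, (∏ p, χ j p ^ s p) ^ m j) =
      ((d1 : K) ^ (w * T) * (d : K) ^ (w * K0) *
      ∏ i, LamF (∑ j, γ i j * (m j : K)) (k i) (t i) (∑ p, α i p * (s p : K))) *
      ((d : K) ^ (b * (l * (S * M))) * ∏ j, (∏ p, χ j p ^ s p) ^ m j) := by
    push_cast
    rw [pow_add]
    ring
  rw [e]
  exact h1.mul h2

/-- the part of the size of the entries that does not depend on the heights -/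
noncomputable def BBg (w b l K0 M T S : ℕ) : ℝ :=
  ((1 + b * (M : ℝ) + K0) ^ T * (1 + l * (S : ℝ)) ^ K0) ^ w

theorem entG_norm2 {w b l : ℕ}
    {γ : Fin w → Fin b → ℂ} {α : Fin w → Fin l → ℂ} {χ : Fin b → Fin l → ℂ} {R1 R0 : ℝ}
    (hR1 : 1 ≤ R1) (hR0 : 1 ≤ R0) (hγ : ∀ i j, ‖γ i j‖ ≤ R1) (hα : ∀ i p, ‖α i p‖ ≤ R0)
    (hχ : ∀ j p, ‖χ j p‖ ≤ R0)
    (K0 M T S : ℕ) {k : Fin w → ℕ} {m : Fin b → ℕ} {t : Fin w → ℕ} {s : Fin l → ℕ}
    (hk : ∀ i, k i ≤ K0) (hm : ∀ j, m j ≤ M) (ht : ∀ i, t i ≤ T) (hs : ∀ p, s p ≤ S) :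
    ‖entG γ α χ k m t s‖ ≤
      BBg w b l K0 M T S * (R1 ^ (w * T) * R0 ^ (w * K0 + b * (l * (S * M)))) := by
  unfold entG
  rw [norm_mul]
  have hR0' : 0 ≤ R0 := by linarith
  have hR1' : 0 ≤ R1 := by linarith
  have h1 : ‖∏ i, LamF (∑ j, γ i j * (m j : ℂ)) (k i) (t i) (∑ p, α i p * (s p : ℂ))‖ ≤
      ((R1 * (1 + b * (M : ℝ) + K0)) ^ T * (R0 * (1 + l * (S : ℝ))) ^ K0) ^ w := by
    rw [norm_prod]
    have : ∀ i ∈ (Finset.univ : Finset (Fin w)),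
        ‖LamF (∑ j, γ i j * (m j : ℂ)) (k i) (t i) (∑ p, α i p * (s p : ℂ))‖ ≤
        ((R1 * (1 + b * (M : ℝ) + K0)) ^ T * (R0 * (1 + l * (S : ℝ))) ^ K0) := by
      intro i _
      have g1 := norm_natsum_le R1 M (γ i) m (hγ i) hm
      have g2 := norm_natsum_le R0 S (α i) s (hα i) hs
      have hS0 : (0 : ℝ) ≤ l * (S : ℝ) := by positivity
      have hX : (1 : ℝ) ≤ R0 * (1 + l * (S : ℝ)) := by nlinarith
      have hx2 : ‖∑ p, α i p * (s p : ℂ)‖ ≤ R0 * (1 + l * (S : ℝ)) := by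
        refine g2.trans ?_
        nlinarith
      refine (norm_LamF_le _ (k i) (t i) _ (b * R1 * M) (R0 * (1 + l * (S : ℝ))) g1 hX hx2).trans ?_
      have hki : (k i : ℝ) ≤ K0 := by exact_mod_cast hk i
      have hK0 : (0 : ℝ) ≤ K0 := Nat.cast_nonneg _
      have hM0 : (0 : ℝ) ≤ b * (M : ℝ) := by positivity
      have hA1 : (1 : ℝ) ≤ R1 * (1 + b * (M : ℝ) + K0) := by nlinarith
      have a1 : (b * R1 * M + k i) ^ (t i) ≤ (R1 * (1 + b * (M : ℝ) + K0)) ^ T := by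
        calc (b * R1 * M + k i : ℝ) ^ (t i) ≤ (R1 * (1 + b * (M : ℝ) + K0)) ^ (t i) := by
              apply pow_le_pow_left₀ (by positivity)
              nlinarith
          _ ≤ _ := pow_le_pow_right₀ hA1 (ht i)
      have a2 : (R0 * (1 + l * (S : ℝ))) ^ (k i) ≤ (R0 * (1 + l * (S : ℝ))) ^ K0 :=
        pow_le_pow_right₀ hX (hk i)
      gcongr
    refine (Finset.prod_le_prod (fun i _ => norm_nonneg _) this).trans ?_
    simp
  have h2 : ‖∏ j, (∏ p, χ j p ^ s p) ^ m j‖ ≤ (R0 ^ (l * (S * M))) ^ b := by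
    rw [norm_prod]
    have : ∀ j ∈ (Finset.univ : Finset (Fin b)), ‖(∏ p, χ j p ^ s p) ^ m j‖ ≤
        (R0 ^ (l * (S * M))) := by
      intro j _
      rw [norm_pow, norm_prod]
      have g : ∏ p, ‖χ j p ^ s p‖ ≤ R0 ^ (l * S) := by
        have g1 : ∀ p ∈ (Finset.univ : Finset (Fin l)), ‖χ j p ^ s p‖ ≤ R0 ^ S := by
          intro p _
          rw [norm_pow]
          exact (pow_le_pow_left₀ (norm_nonneg _) (hχ j p) _).trans (pow_le_pow_right₀ hR0 (hs p))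
        refine (Finset.prod_le_prod (fun i _ => norm_nonneg _) g1).trans ?_
        simp only [Finset.prod_const, Finset.card_univ, Fintype.card_fin]
        rw [← pow_mul]
        apply le_of_eq; congr 1; ring
      calc (∏ p, ‖χ j p ^ s p‖) ^ m j ≤ (R0 ^ (l * S)) ^ m j :=
            pow_le_pow_left₀ (Finset.prod_nonneg fun _ _ => norm_nonneg _) g _
        _ = R0 ^ (l * S * m j) := by rw [← pow_mul]
        _ ≤ _ := by
          apply pow_le_pow_right₀ hR0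
          calc l * S * m j ≤ l * S * M := Nat.mul_le_mul_left _ (hm j)
            _ = _ := by ring
    refine (Finset.prod_le_prod (fun i _ => norm_nonneg _) this).trans ?_
    simp
  refine (mul_le_mul h1 h2 (norm_nonneg _) (by positivity)).trans (le_of_eq ?_)
  unfold BBg
  generalize (1 + b * (M : ℝ) + K0) = P
  generalize (1 + l * (S : ℝ)) = P'
  simp only [mul_pow, ← pow_mul, pow_add]
  ring

/-- number of monomials -/
noncomputable def NNg {w : ℕ} (Kc : Fin w → ℕ) (b M : ℕ) : ℝ :=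
  (((∏ i, (Kc i + 1)) * (M + 1) ^ b : ℕ) : ℝ)

/-- the analytic bound -/
noncomputable def CCg (r w H : ℕ) (Y : ℝ) : ℝ :=
  ((r + w : ℕ) + 1) * (2 * E1 H Y) ^ (r + w)

theorem good_NNg {w : ℕ} (u b k μ : ℕ) (Kc : ℕ → Fin w → ℕ) (hKc : ∀ n i, Kc n i ≤ n ^ k) :
    Good u (fun n => NNg (Kc n) b (n ^ μ)) := by
  have h1 : Good u (fun n : ℕ => ((2 : ℝ) * (n : ℝ) ^ k) ^ w * ((2 : ℝ) * (n : ℝ) ^ μ) ^ b) :=
    (((Good.const 2 (by norm_num)).mul (Good.natPow k)).pow w).mul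
      (((Good.const 2 (by norm_num)).mul (Good.natPow μ)).pow b)
  refine h1.mono (fun n hn => ?_) (fun n hn => ?_)
  · unfold NNg
    have : 1 ≤ (∏ i, (Kc n i + 1)) * (n ^ μ + 1) ^ b := by
      apply Nat.succ_le_of_lt
      apply Nat.mul_pos
      · exact Finset.prod_pos (fun i _ => Nat.succ_pos _)
      · positivity
    exact_mod_cast this
  · unfold NNg
    have hn1 : (1 : ℝ) ≤ n := by exact_mod_cast hn
    have a1 : (1 : ℝ) ≤ (n : ℝ) ^ k := one_le_pow₀ hn1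
    have a2 : (1 : ℝ) ≤ (n : ℝ) ^ μ := one_le_pow₀ hn1
    push_cast
    have b1 : ∏ i : Fin w, ((Kc n i : ℝ) + 1) ≤ (2 * (n : ℝ) ^ k) ^ w := by
      have : ∀ i ∈ (Finset.univ : Finset (Fin w)), ((Kc n i : ℝ) + 1) ≤ 2 * (n : ℝ) ^ k := by
        intro i _
        have : (Kc n i : ℝ) ≤ (n : ℝ) ^ k := by exact_mod_cast hKc n i
        linarith
      refine (Finset.prod_le_prod (fun i _ => by positivity) this).trans ?_
      simp
    have b2 : ((n : ℝ) ^ μ + 1) ^ b ≤ (2 * (n : ℝ) ^ μ) ^ b :=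
      pow_le_pow_left₀ (by positivity) (by linarith) _
    exact mul_le_mul b1 b2 (by positivity) (by positivity)

theorem good_B1 (u b k μ t c : ℕ) (R : ℝ) (hR : 0 ≤ R) (hμ : μ ≤ k) (ht : t ≤ u) :
    Good u (fun n : ℕ => (1 + b * R * ((n ^ μ : ℕ) : ℝ) + ((n ^ k : ℕ) : ℝ)) ^ (c * n ^ t)) := by
  refine Good.powVar (f := fun n : ℕ => (1 + b * R * ((n ^ μ : ℕ) : ℝ) + ((n ^ k : ℕ) : ℝ))) ?_
    (fun n => c * n ^ t) c ?_
  · have h1 : Good 0 (fun n : ℕ => (2 + b * R : ℝ) * (n : ℝ) ^ k) :=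
      (Good.const (2 + b * R) (by
        have : (0 : ℝ) ≤ b * R := by positivity
        linarith)).mul (Good.natPow k)
    refine h1.mono (fun n hn => ?_) (fun n hn => ?_)
    · have : (0 : ℝ) ≤ b * R * ((n ^ μ : ℕ) : ℝ) := by positivity
      have : (0 : ℝ) ≤ ((n ^ k : ℕ) : ℝ) := by positivity
      linarith
    · have hn1 : (1 : ℝ) ≤ n := by exact_mod_cast hn
      have a1 : (n : ℝ) ^ μ ≤ (n : ℝ) ^ k := pow_le_pow_right₀ hn1 (by omega)
      have a2 : (1 : ℝ) ≤ (n : ℝ) ^ k := one_le_pow₀ hn1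
      have a3 : b * R * (n : ℝ) ^ μ ≤ b * R * (n : ℝ) ^ k :=
        mul_le_mul_of_nonneg_left a1 (by positivity)
      push_cast
      nlinarith
  · intro n hn
    have hn1 : (1 : ℝ) ≤ n := by exact_mod_cast hn
    push_cast
    exact mul_le_mul_of_nonneg_left (pow_le_pow_right₀ hn1 ht) (Nat.cast_nonneg _)

theorem good_B2 (u l k σ c : ℕ) (R : ℝ) (hR : 0 ≤ R) (hk : k ≤ u) :
    Good u (fun n : ℕ => (1 + l * R * ((c * n ^ σ : ℕ) : ℝ)) ^ (n ^ k)) := by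
  refine Good.powVar (f := fun n : ℕ => (1 + l * R * ((c * n ^ σ : ℕ) : ℝ))) ?_
    (fun n => n ^ k) 1 ?_
  · have h1 : Good 0 (fun n : ℕ => (1 + l * R * c : ℝ) * (n : ℝ) ^ σ) :=
      (Good.const (1 + l * R * c) (by
        have : (0 : ℝ) ≤ l * R * c := by positivity
        linarith)).mul (Good.natPow σ)
    refine h1.mono (fun n hn => ?_) (fun n hn => ?_)
    · have : (0 : ℝ) ≤ l * R * ((c * n ^ σ : ℕ) : ℝ) := by positivity
      linarith
    · have hn1 : (1 : ℝ) ≤ n := by exact_mod_cast hn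
      have a1 : (1 : ℝ) ≤ (n : ℝ) ^ σ := one_le_pow₀ hn1
      push_cast
      nlinarith
  · intro n hn
    have hn1 : (1 : ℝ) ≤ n := by exact_mod_cast hn
    push_cast
    rw [one_mul]
    exact pow_le_pow_right₀ hn1 hk

theorem good_CCg (u r w k t c : ℕ) (C2 : ℝ) (hC2 : 1 ≤ C2) (hk : k ≤ u) (ht : t ≤ u) :
    Good u (fun n => CCg r w (n ^ k + c * n ^ t) (C2 * (c * (n : ℝ) ^ k))) := by
  have hE : Good u (fun n : ℕ => E1 (n ^ k + c * n ^ t) (C2 * (c * (n : ℝ) ^ k))) := by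
    unfold E1
    apply Good.mul
    · refine Good.factorial (fun n => n ^ k + c * n ^ t) (1 + c) ?_ ?_
      · intro n hn
        have : 1 ≤ n ^ k := Nat.one_le_pow _ _ hn
        omega
      · intro n hn
        have hn1 : (1 : ℝ) ≤ n := by exact_mod_cast hn
        have a1 : (n : ℝ) ^ k ≤ (n : ℝ) ^ u := pow_le_pow_right₀ hn1 hk
        have a2 : (n : ℝ) ^ t ≤ (n : ℝ) ^ u := pow_le_pow_right₀ hn1 ht
        have a3 : (c : ℝ) * (n : ℝ) ^ t ≤ c * (n : ℝ) ^ u :=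
          mul_le_mul_of_nonneg_left a2 (Nat.cast_nonneg _)
        push_cast
        linarith
    · refine Good.exp _ (6 * C2 * c) ?_ ?_
      · intro n _; positivity
      · intro n hn
        have hn1 : (1 : ℝ) ≤ n := by exact_mod_cast hn
        have a1 : (n : ℝ) ^ k ≤ (n : ℝ) ^ u := pow_le_pow_right₀ hn1 hk
        calc 6 * (C2 * (c * (n : ℝ) ^ k)) = 6 * C2 * c * (n : ℝ) ^ k := by ring
          _ ≤ _ := mul_le_mul_of_nonneg_left a1 (by positivity)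
  have hrw : (1 : ℝ) ≤ ((r + w : ℕ) : ℝ) + 1 := by
    have : (0 : ℝ) ≤ ((r + w : ℕ) : ℝ) := Nat.cast_nonneg _
    linarith
  exact (Good.const (u := u) (((r + w : ℕ) : ℝ) + 1) hrw).mul
      (((Good.const (u := u) 2 (by norm_num)).mul hE).pow (r + w))

theorem growthP {w : ℕ} (b l r k μ σ t u c Dg : ℕ) (hμk : μ + σ = k) (hk : k ≤ u) (ht : t ≤ u)
    (R C2 : ℝ) (hR : 1 ≤ R) (hC2 : 1 ≤ C2) (hc : 1 ≤ c)
    (Kc : ℕ → Fin w → ℕ) (hKc : ∀ n i, Kc n i ≤ n ^ k) :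
    ∃ n0 : ℕ, ∀ n ≥ n0, 1 ≤ n →
      ((2 * NNg (Kc n) b (n ^ μ) * CCg r w (n ^ k + c * n ^ t) (C2 * (c * (n : ℝ) ^ k)) *
        (NNg (Kc n) b (n ^ μ) * BBg w b l (n ^ k) (n ^ μ) (c * n ^ t) (c * n ^ σ)) ^ Dg) ^ 2) ^ 2 <
        2 ^ (n ^ (u + 1)) ∧
      (((1 + b * R * ((n ^ μ : ℕ) : ℝ) + ((n ^ k : ℕ) : ℝ)) ^ (c * n ^ t) *
        (1 + l * R * ((c * n ^ σ : ℕ) : ℝ)) ^ (n ^ k)) ^ w *
          (R ^ (l * ((c * n ^ σ) * n ^ μ))) ^ b) *
        (1 + (w * (((c * n ^ t : ℕ) : ℝ) + ((n ^ k : ℕ) : ℝ)) +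
          b * (l * (((c * n ^ σ : ℕ) : ℝ) * ((n ^ μ : ℕ) : ℝ))))) ≤
        2 ^ (n ^ (u + 1)) := by
  have hN := good_NNg (w := w) u b k μ Kc hKc
  have hB : Good u (fun n => BBg w b l (n ^ k) (n ^ μ) (c * n ^ t) (c * n ^ σ)) := by
    have h1 := good_B1 u b k μ t c 1 (by norm_num) (by omega) ht
    have h2 := good_B2 u l k σ c 1 (by norm_num) hk
    have h3 := (h1.mul h2).pow w
    simp only [mul_one] at h3
    exact h3
  have hC := good_CCg u r w k t c C2 hC2 hk ht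
  have h1 := ((((Good.const (u := u) 2 (by norm_num)).mul hN).mul hC).mul
    ((hN.mul hB).pow Dg)).pow 2
  obtain ⟨n1, hn1⟩ := h1.eventually_lt
  have hB' := (((good_B1 u b k μ t c R (by linarith) (by omega) ht).mul
    (good_B2 u l k σ c R (by linarith) hk)).pow w)
  have hR3 : Good u (fun n : ℕ => (R ^ (l * ((c * n ^ σ) * n ^ μ))) ^ b) := by
    refine (Good.powVar (Good.const _ hR) (fun n => l * ((c * n ^ σ) * n ^ μ)) (l * c) ?_).pow b
    intro n hn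
    have hn1 : (1 : ℝ) ≤ n := by exact_mod_cast hn
    push_cast
    calc (l : ℝ) * (c * (n : ℝ) ^ σ * (n : ℝ) ^ μ) = l * c * (n : ℝ) ^ (σ + μ) := by
          rw [pow_add]; ring
      _ ≤ _ := mul_le_mul_of_nonneg_left (pow_le_pow_right₀ hn1 (by omega)) (by positivity)
  have hK : Good u (fun n : ℕ => 1 + (w * (((c * n ^ t : ℕ) : ℝ) + ((n ^ k : ℕ) : ℝ)) +
          b * (l * (((c * n ^ σ : ℕ) : ℝ) * ((n ^ μ : ℕ) : ℝ))))) := by
    have h1 : Good u (fun n : ℕ => (1 + (w * (c + 1) + b * (l * c)) : ℝ) * (n : ℝ) ^ u) :=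
      (Good.const (1 + (w * (c + 1) + b * (l * c)) : ℝ) (by
        have : (0 : ℝ) ≤ (w * (c + 1) + b * (l * c)) := by positivity
        linarith)).mul (Good.natPow _)
    refine h1.mono (fun n hn => ?_) (fun n hn => ?_)
    · have : (0 : ℝ) ≤ (w * (((c * n ^ t : ℕ) : ℝ) + ((n ^ k : ℕ) : ℝ)) +
          b * (l * (((c * n ^ σ : ℕ) : ℝ) * ((n ^ μ : ℕ) : ℝ)))) := by positivity
      linarith
    · have hn1 : (1 : ℝ) ≤ n := by exact_mod_cast hn
      have a1 : (n : ℝ) ^ k ≤ (n : ℝ) ^ u := pow_le_pow_right₀ hn1 hk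
      have a2 : (n : ℝ) ^ t ≤ (n : ℝ) ^ u := pow_le_pow_right₀ hn1 ht
      have a0 : (1 : ℝ) ≤ (n : ℝ) ^ u := one_le_pow₀ hn1
      have a4 : (n : ℝ) ^ σ * (n : ℝ) ^ μ ≤ (n : ℝ) ^ u := by
        rw [← pow_add]; exact pow_le_pow_right₀ hn1 (by omega)
      push_cast
      have b1 : (w : ℝ) * (c * (n : ℝ) ^ t + (n : ℝ) ^ k) ≤ w * (c * (n : ℝ) ^ u + (n : ℝ) ^ u) := by
        gcongr
      have b2 : (b : ℝ) * (l * (c * (n : ℝ) ^ σ * (n : ℝ) ^ μ)) ≤ b * (l * (c * (n : ℝ) ^ u)) := by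
        have : c * (n : ℝ) ^ σ * (n : ℝ) ^ μ = c * ((n : ℝ) ^ σ * (n : ℝ) ^ μ) := by ring
        rw [this]
        gcongr
      calc 1 + ((w : ℝ) * (c * (n : ℝ) ^ t + (n : ℝ) ^ k) +
            b * (l * (c * (n : ℝ) ^ σ * (n : ℝ) ^ μ)))
          ≤ (n : ℝ) ^ u + (w * (c * (n : ℝ) ^ u + (n : ℝ) ^ u) + b * (l * (c * (n : ℝ) ^ u))) := by
            linarith
        _ = _ := by ring
  have h2 := (hB'.mul hR3).mul hK
  obtain ⟨n2, hn2⟩ := h2.eventually_lt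
  obtain ⟨C', hC', h2'⟩ := h2
  refine ⟨max n1 n2, fun n hn hn0 => ⟨?_, ?_⟩⟩
  · exact hn1 n ((le_max_left _ _).trans hn) hn0
  · have g1 := hn2 n ((le_max_right _ _).trans hn) hn0
    have g2 := (h2' n hn0).1
    refine le_trans ?_ g1.le
    have g3 := le_self_pow₀ g2 (n := 2) (by norm_num)
    exact g3

end Pool.Agent.H70.QL
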