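import Mathlib
import Pool.Agent.H70.QL.AuxP
import Pool.Graph.R_seed8.H335R2.Obs.Final

/-!
The quantitative obstruction theorem: a form of the linear subgroup theorem (hyperplane type) for
points which are only close to the points of an analytic subgroup, uniformly in the points.
-/

set_option autoImplicit false

namespace Pool.Agent.H70.QL

open Finset Module Pool.Agent.H301R2.TR Pool.Agent.Y928.QN Pool.Agent.H335R2.Obs

/-- arithmetic of the final inequality -/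
theorem final_arith2 {C n k t μ σ l' q' d0 d1 : ℕ} (hn : C < n)
    (h : ((C + 1) * n ^ σ) ^ q' * ((C + 1) * n ^ t) ^ l' ≤ C * ((n ^ k) ^ d0 * (n ^ μ) ^ d1)) :
    l' * t + q' * σ < d0 * k + d1 * μ ∨
      (l' * t + q' * σ = d0 * k + d1 * μ ∧ l' = 0 ∧ q' = 0) := by
  have hn1 : 1 ≤ n := by omega
  have e1 : ((C + 1) * n ^ σ) ^ q' * ((C + 1) * n ^ t) ^ l' =
      (C + 1) ^ (q' + l') * n ^ (l' * t + q' * σ) := by
    rw [mul_pow, mul_pow, ← pow_mul, ← pow_mul, pow_add, pow_add, mul_comm t l', mul_comm σ q']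
    ring
  have e2 : (n ^ k) ^ d0 * (n ^ μ) ^ d1 = n ^ (d0 * k + d1 * μ) := by
    rw [← pow_mul, ← pow_mul, pow_add, mul_comm k d0, mul_comm μ d1]
  rw [e1, e2] at h
  rcases lt_trichotomy (l' * t + q' * σ) (d0 * k + d1 * μ) with h1 | h1 | h1
  · exact Or.inl h1
  · right
    refine ⟨h1, ?_⟩
    rw [h1] at h
    have hpos : 0 < n ^ (d0 * k + d1 * μ) := by positivity
    have h2 := Nat.le_of_mul_le_mul_right h hpos
    by_contra hcon
    have h3 : 1 ≤ q' + l' := by omega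
    have h4 : (C + 1) ^ 1 ≤ (C + 1) ^ (q' + l') := Nat.pow_le_pow_right (by omega) h3
    rw [pow_one] at h4
    omega
  · exfalso
    have h2 : n ^ (d0 * k + d1 * μ + 1) ≤ n ^ (l' * t + q' * σ) := Nat.pow_le_pow_right hn1 h1
    have h3 : 1 ≤ (C + 1) ^ (q' + l') := Nat.one_le_pow _ _ (by omega)
    have hpos : 0 < n ^ (d0 * k + d1 * μ) := by positivity
    have h4 : n * n ^ (d0 * k + d1 * μ) ≤ C * n ^ (d0 * k + d1 * μ) := by
      calc n * n ^ (d0 * k + d1 * μ) = n ^ (d0 * k + d1 * μ + 1) := by rw [pow_succ]; ring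
        _ ≤ n ^ (l' * t + q' * σ) := h2
        _ = 1 * n ^ (l' * t + q' * σ) := (one_mul _).symm
        _ ≤ (C + 1) ^ (q' + l') * n ^ (l' * t + q' * σ) := Nat.mul_le_mul_right _ h3
        _ ≤ _ := h
    have h5 := Nat.le_of_mul_le_mul_right h4 hpos
    omega

/-- **Quantitative obstruction theorem.** The data `γ, α, χ` are algebraic, of bounded degree and of
size at most `exp (η n ^ g)`, `exp (η n ^ h)`, and differ by less than `4 ^ (- n ^ (u + 1))` from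
the data of an analytic subgroup. Then an obstruction exists. -/
theorem obstruction_pert {w b l r : ℕ} (A : Finset (Fin w)) (γ0 : Fin w → Fin b → ℂ)
    (ω : Fin w → Fin l → ℂ) (x : Fin r → Fin b → ℂ) (y : Fin r → Fin l → ℂ)
    (k μ σ h g t u Dg : ℕ) (hμ : μ + σ = k) (hh : 1 ≤ h) (hg : 1 ≤ g) (hkh : k + h ≤ u + 1)
    (htg : t + g ≤ u + 1) (hcount : (u + 1) * (r + w) + 1 ≤ A.card * k + b * μ) :
    ∃ η : ℝ, 0 < η ∧ ∃ n0 : ℕ, ∀ n ≥ n0, ∀ (F : Type) [Field F] [NumberField F]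
      (φ : F →ₐ[ℚ] ℂ), Module.finrank ℚ F ≤ Dg → ∀ (γ : Fin w → Fin b → F)
      (α : Fin w → Fin l → F) (χ : Fin b → Fin l → F) (d1 d : ℕ) (R1 R0 : ℝ),
      0 < d1 → 0 < d → 1 ≤ R1 → 1 ≤ R0 → (d1 : ℝ) * R1 ≤ Real.exp (η * (n : ℝ) ^ g) →
      (d : ℝ) * R0 ≤ Real.exp (η * (n : ℝ) ^ h) →
      (∀ i j, IntD d1 1 (γ i j)) → (∀ i p, IntD d 1 (α i p)) → (∀ j p, IntD d 1 (χ j p)) →
      (∀ τ : F →ₐ[ℚ] ℂ, (∀ i j, ‖τ (γ i j)‖ ≤ R1) ∧ (∀ i p, ‖τ (α i p)‖ ≤ R0) ∧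
        (∀ j p, ‖τ (χ j p)‖ ≤ R0)) → (∀ j p, χ j p ≠ 0) →
      (∀ i j, ‖φ (γ i j) - γ0 i j‖ ≤ (1 / 4 : ℝ) ^ (n ^ (u + 1))) →
      (∀ i ∈ A, ∀ p, ‖φ (α i p) - ω i p‖ ≤ (1 / 4 : ℝ) ^ (n ^ (u + 1))) →
      (∀ j p, ‖φ (χ j p) - Complex.exp (∑ ρ, x ρ j * y ρ p + ∑ i, γ0 i j * ω i p)‖ ≤
        (1 / 4 : ℝ) ^ (n ^ (u + 1))) →
      ∃ (Af' : Submodule ℂ (Fin w → ℂ)) (Rm' : AddSubgroup (Fin b → ℤ))
      (W0 : Submodule ℂ (Fin w → ℂ)) (G0 : AddSubgroup (Fin l → ℤ)),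
      (∀ a ∈ Af', ∀ i ∉ A, a i = 0) ∧ ¬ (Af' = ⊥ ∧ Rm' = ⊥) ∧
      (∀ c, c ∈ W0 ↔ (∀ a ∈ Af', ∑ i, a i * c i = 0) ∧
        ∀ m ∈ Rm', ∑ j, (m j : ℂ) * ∑ i, c i * φ (γ i j) = 0) ∧
      (∀ s, s ∈ G0 ↔ (∀ a ∈ Af', ∑ i, a i * ∑ p, φ (α i p) * (s p : ℂ) = 0) ∧
        ∀ m ∈ Rm', ∏ j, (∏ p, φ (χ j p) ^ s p) ^ m j = 1) ∧
      ((w - finrank ℂ W0) * t + (l - finrank ℤ G0) * σ < finrank ℂ Af' * k + finrank ℤ Rm' * μ ∨
        ((w - finrank ℂ W0) * t + (l - finrank ℤ G0) * σ =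
          finrank ℂ Af' * k + finrank ℤ Rm' * μ ∧ w - finrank ℂ W0 = 0 ∧
            l - finrank ℤ G0 = 0)) := by
  classical
  set N := A.card + b with hN
  set C := 2 ^ ((N + 1) * N) with hC
  have hC1 : 1 ≤ C := Nat.one_le_two_pow
  obtain ⟨η, hη, n0, hn0⟩ := exists_aux_pert A γ0 ω x y k μ σ h g t u
    ((N + 1) * (w + 1) * (C + 1)) Dg hμ hh hg hkh htg hcount
    (Nat.succ_le_of_lt (by positivity))
  refine ⟨η, hη, max n0 (C + 1), ?_⟩
  intro n hn F _ _ φ hDg γ α χ d1 d R1 R0 hd1 hd hR1 hR0 hdR1 hdR0 dγ dα dχ hσ hχne hγ hα hχ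
  obtain ⟨p, hp, hpv⟩ := hn0 n (by omega) F φ hDg γ α χ d1 d R1 R0 hd1 hd hR1 hR0 hdR1 hdR0
    dγ dα dχ hσ hγ hα hχ
  have hχ0 : ∀ j p, φ (χ j p) ≠ 0 := fun j p => (map_ne_zero φ).mpr (hχne j p)
  have hn1 : 1 ≤ n := by omega
  obtain ⟨Af', Rm', W0, G0, h1, h2, h3, h4, l', q', h5, h6, h7, h8⟩ :=
    key_ineq A (fun i j => φ (γ i j)) (fun i q => φ (α i q)) (fun j q => φ (χ j q)) zeg hχ0
      (n ^ k) (n ^ μ) ((w + 1) * (C + 1) * n ^ t) ((w + 1) * (C + 1) * n ^ σ)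
      (Nat.one_le_pow _ _ hn1) (Nat.one_le_pow _ _ hn1) p
      (fun j i => (j.1 i : ℕ)) (fun j i => (j.2 i : ℕ))
      (by
        intro j i hi
        have : (j.1 i : ℕ) < (if i ∈ A then n ^ k else 0) + 1 := (j.1 i).2
        rw [if_neg hi] at this
        omega)
      (by
        intro j j' h h'
        apply Prod.ext
        · funext i; exact Fin.ext (congrFun h i)
        · funext i; exact Fin.ext (congrFun h' i))
      hp
      (by
        intro j i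
        have : (j.1 i : ℕ) < (if i ∈ A then n ^ k else 0) + 1 := (j.1 i).2
        split_ifs at this <;> omega)
      (by
        intro j i
        have := (j.2 i).2
        omega)
      (by
        intro t s ht hs
        apply hpv t s
        · intro i
          refine (ht i).trans ?_
          rw [← hN, ← mul_assoc, ← mul_assoc]
          exact Nat.mul_le_mul_right _ (Nat.mul_le_mul_right _ (Nat.mul_le_mul_right _
            (Nat.le_succ _)))
        · intro q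
          refine (hs q).trans ?_
          rw [← hN, ← mul_assoc, ← mul_assoc]
          exact Nat.mul_le_mul_right _ (Nat.mul_le_mul_right _ (Nat.mul_le_mul_right _
            (Nat.le_succ _))))
  refine ⟨Af', Rm', W0, G0, h1, h2, h3, h4, ?_⟩
  have h9 : ((C + 1) * n ^ σ) ^ q' * ((C + 1) * n ^ t) ^ l' ≤
      C * ((n ^ k) ^ finrank ℂ Af' * (n ^ μ) ^ finrank ℤ Rm') := by
    refine le_trans ?_ h8
    apply Nat.mul_le_mul
    · apply Nat.pow_le_pow_left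
      calc (C + 1) * n ^ σ = 1 * ((C + 1) * n ^ σ) := (one_mul _).symm
        _ ≤ (w + 1) * ((C + 1) * n ^ σ) := Nat.mul_le_mul_right _ (by omega)
        _ = (w + 1) * (C + 1) * n ^ σ := by ring
        _ ≤ _ := Nat.le_succ _
    · rcases Nat.eq_zero_or_pos l' with h0 | h0
      · rw [h0, pow_zero, pow_zero]
      · apply Nat.pow_le_pow_left
        have h10 : (C + 1) * n ^ t ≤ (w + 1) * (C + 1) * n ^ t / l' := by
          rw [Nat.le_div_iff_mul_le h0]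
          calc (C + 1) * n ^ t * l' ≤ (C + 1) * n ^ t * (w + 1) := Nat.mul_le_mul_left _ (by omega)
            _ = _ := by ring
        omega
  have h10 := final_arith2 (k := k) (t := t) (μ := μ) (σ := σ) (n := n) (by omega) h9
  have h11 : w - finrank ℂ W0 ≤ l' := by omega
  have h12 : l - finrank ℤ G0 ≤ q' := by omega
  have h13 : (w - finrank ℂ W0) * t ≤ l' * t := Nat.mul_le_mul_right _ h11
  have h14 : (l - finrank ℤ G0) * σ ≤ q' * σ := Nat.mul_le_mul_right _ h12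
  rcases h10 with h10 | ⟨h10, h15, h16⟩
  · left; omega
  · rcases Nat.lt_or_ge ((w - finrank ℂ W0) * t + (l - finrank ℤ G0) * σ)
      (finrank ℂ Af' * k + finrank ℤ Rm' * μ) with h17 | h17
    · exact Or.inl h17
    · right
      refine ⟨by omega, by omega, by omega⟩

end Pool.Agent.H70.QL
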