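import Mathlib
import Pool.Agent.H70.QL.Obst
import Pool.Graph.R_seed8.H335R2.Obs.Obs2
import Pool.Graph.R_seed8.H301R2.SSE.Lin

/-!
The zero estimate part for two rows and three points.
-/

set_option autoImplicit false

namespace Pool.Agent.H70.QL

open Finset Module Pool.Agent.H301R2.TR Pool.Agent.H335R2.Obs Pool.Agent.H301R2.SSE

/-- a subgroup in which any two elements are dependent has rank at most one -/
theorem rank_le_one {l : ℕ} (G : AddSubgroup (Fin l → ℤ))
    (h : ∀ s ∈ G, ∀ s' ∈ G, ∃ c c' : ℤ, ¬ (c = 0 ∧ c' = 0) ∧ c • s + c' • s' = 0) :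
    finrank ℤ G ≤ 1 := by
  by_contra hcon
  push Not at hcon
  obtain ⟨ρ, hρ, -, hli⟩ := int_basis G
  obtain ⟨c, c', hne, hcc⟩ := h _ (hρ ⟨0, by omega⟩) _ (hρ ⟨1, hcon⟩)
  apply hne
  have h0 : Function.Injective ![(⟨0, by omega⟩ : Fin (finrank ℤ G)), ⟨1, hcon⟩] := by
    intro i j hij
    fin_cases i <;> fin_cases j <;> simp_all
  have h1 := hli.comp _ h0
  have h2 : ρ ∘ ![(⟨0, by omega⟩ : Fin (finrank ℤ G)), ⟨1, hcon⟩] =
      ![ρ ⟨0, by omega⟩, ρ ⟨1, hcon⟩] := by
    funext i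
    fin_cases i <;> rfl
  rw [h2] at h1
  exact LinearIndependent.pair_iff.mp h1 c c' hcc

theorem rank_zero {l : ℕ} (G : AddSubgroup (Fin l → ℤ)) (h : ∀ s ∈ G, s = 0) :
    finrank ℤ G = 0 := by
  have : G = ⊥ := by
    rw [eq_bot_iff]; intro s hs; exact h s hs
  rw [this]
  exact finrank_zero_of_subsingleton

theorem rank_lt {l : ℕ} (G : AddSubgroup (Fin l → ℤ)) (f : (Fin l → ℤ) →+ ℂ)
    (h : ∀ s ∈ G, f s = 0) (hf : f ≠ 0) : finrank ℤ G < l := by
  by_contra hcon
  push Not at hcon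
  have h1 : Pool.Agent.H301R2.ZG.ratSpan G = ⊤ :=
    ratSpan_eq_top_of_finrank (by rw [Fintype.card_fin]; exact hcon)
  apply hf
  have h2 : ∀ j, f (Pi.single j 1) = 0 := by
    intro j
    obtain ⟨N, hN, hm⟩ := single_mem h1 j
    have h3 := h _ hm
    have h4 : (Pi.single j (N : ℤ) : Fin l → ℤ) = (N : ℤ) • Pi.single j 1 := by
      rw [← Pi.single_smul]; simp
    rw [h4, map_zsmul] at h3
    rcases smul_eq_zero.mp h3 with h5 | h5
    · exact absurd h5 (by exact_mod_cast hN.ne')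
    · exact h5
  refine DFunLike.ext _ _ fun s => ?_
  have h5 : s = ∑ j, s j • (Pi.single j 1 : Fin l → ℤ) := by
    funext i
    rw [Finset.sum_apply, Finset.sum_eq_single i]
    · simp
    · intro j _ hj
      simp [Pi.single_eq_of_ne hj.symm]
    · intro h; exact absurd (Finset.mem_univ i) h
  rw [h5, map_sum, AddMonoidHom.zero_apply]
  apply Finset.sum_eq_zero
  intro j _
  rw [map_zsmul, h2, smul_zero]

/-- the coefficients of the two derivations -/
def gm : Fin 2 → Fin 2 → ℤ := fun i j => if i = j then -1 else 0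

theorem contra23 (h : ℕ) (hh : 1 ≤ h) (a χ : Fin 2 → Fin 3 → ℂ)
    (ND1 : ∀ v : Fin 2 → ℂ, (∀ s : Fin 3 → ℤ, ∑ i, v i * ∑ p, a i p * (s p : ℂ) = 0) → v = 0)
    (ND2 : ∀ m : Fin 2 → ℤ, m ≠ 0 → ∀ s s' : Fin 3 → ℤ,
      ∑ i, (m i : ℂ) * ∑ p, a i p * (s p : ℂ) = 0 → ∑ i, (m i : ℂ) * ∑ p, a i p * (s' p : ℂ) = 0 →
      ∏ j, (∏ p, χ j p ^ s p) ^ m j = 1 → ∏ j, (∏ p, χ j p ^ s' p) ^ m j = 1 →
      ∃ c c' : ℤ, ¬ (c = 0 ∧ c' = 0) ∧ c • s + c' • s' = 0)
    (ND3 : ∀ s : Fin 3 → ℤ, (∀ i, ∑ p, a i p * (s p : ℂ) = 0) →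
      (∃ N : ℕ, 0 < N ∧ ∀ j, (∏ p, χ j p ^ s p) ^ N = 1) → s = 0)
    (Af : Submodule ℂ (Fin 2 → ℂ)) (Rm : AddSubgroup (Fin 2 → ℤ))
    (W0 : Submodule ℂ (Fin 2 → ℂ)) (G0 : AddSubgroup (Fin 3 → ℤ))
    (h2 : ¬ (Af = ⊥ ∧ Rm = ⊥))
    (h3 : ∀ c, c ∈ W0 ↔ (∀ a ∈ Af, ∑ i, a i * c i = 0) ∧
        ∀ m ∈ Rm, ∑ j, (m j : ℂ) * ∑ i, c i * ((gm i j : ℤ) : ℂ) = 0)
    (h4 : ∀ s, s ∈ G0 ↔ (∀ v ∈ Af, ∑ i, v i * ∑ p, a i p * (s p : ℂ) = 0) ∧
        ∀ m ∈ Rm, ∏ j, (∏ p, χ j p ^ s p) ^ m j = 1)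
    (h5 : (2 - finrank ℂ W0) * (12 * h + 8) + (3 - finrank ℤ G0) * (4 * h + 4) <
        finrank ℂ Af * (11 * h + 9) + finrank ℤ Rm * (7 * h + 5) ∨
        ((2 - finrank ℂ W0) * (12 * h + 8) + (3 - finrank ℤ G0) * (4 * h + 4) =
          finrank ℂ Af * (11 * h + 9) + finrank ℤ Rm * (7 * h + 5) ∧ 2 - finrank ℂ W0 = 0 ∧
            3 - finrank ℤ G0 = 0)) : False := by
  classical
  set N : Submodule ℂ (Fin 2 → ℂ) := Af ⊓ kSpan ℂ Rm with hN
  have hcod := codim_ge (fun i j => ((gm i j : ℤ) : ℂ)) Af Rm W0 h3 N (by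
    intro m hm hmA
    refine ⟨?_, hm⟩
    have e : (fun i => ∑ j, ((gm i j : ℤ) : ℂ) * m j) = -m := by
      funext i
      rw [Finset.sum_eq_single i]
      · simp [gm]
      · intro j _ hj
        simp [gm, hj.symm]
      · intro h; exact absurd (Finset.mem_univ i) h
    rw [e] at hmA
    have := Af.neg_mem hmA
    rwa [neg_neg] at this)
  have hd0 : finrank ℂ Af ≤ 2 := by
    have := Submodule.finrank_le Af
    rwa [finrank_fintype_fun_eq_card, Fintype.card_fin] at this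
  have hks := finrank_kSpan ℂ Rm
  have hd1 : finrank ℤ Rm ≤ 2 := by
    rw [← hks]
    have := Submodule.finrank_le (kSpan ℂ Rm)
    rwa [finrank_fintype_fun_eq_card, Fintype.card_fin] at this
  have hN0 : finrank ℂ N ≤ finrank ℂ Af := Submodule.finrank_mono inf_le_left
  have hN1 : finrank ℂ N ≤ finrank ℤ Rm := by
    rw [← hks]; exact Submodule.finrank_mono inf_le_right
  set d0 := finrank ℂ Af with hd0def
  set d1 := finrank ℤ Rm with hd1def
  set c' := finrank ℂ N with hc'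
  set cw := 2 - finrank ℂ W0 with hcw
  set bb := 3 - finrank ℤ G0 with hbb
  have hG0le : finrank ℤ G0 ≤ 3 := by
    rw [← finrank_kSpan ℂ G0]
    have := Submodule.finrank_le (kSpan ℂ G0)
    rwa [finrank_fintype_fun_eq_card, Fintype.card_fin] at this
  -- not both zero
  have hpos : 1 ≤ d0 + d1 := by
    by_contra hcon
    have h6 : d0 = 0 := by omega
    have h7 : d1 = 0 := by omega
    apply h2
    constructor
    · exact Submodule.finrank_eq_zero.mp h6
    · obtain ⟨ρ, hρ1, hρ2, hρ3⟩ := int_basis Rm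
      rw [eq_bot_iff]
      intro m hm
      obtain ⟨c, hc⟩ := hρ2 m hm
      have : IsEmpty (Fin (finrank ℤ Rm)) := by
        rw [← hd1def, h7]; infer_instance
      rw [hc]
      simp
  -- elements of `G0`
  have hG : ∀ s ∈ G0, ∀ v ∈ Af, ∑ i, v i * ∑ p, a i p * (s p : ℂ) = 0 := fun s hs v hv =>
    ((h4 s).mp hs).1 v hv
  have hG' : ∀ s ∈ G0, ∀ m ∈ Rm, ∏ j, (∏ p, χ j p ^ s p) ^ m j = 1 := fun s hs m hm =>
    ((h4 s).mp hs).2 m hm
  rcases Nat.eq_zero_or_pos c' with h0 | hc'pos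
  · -- `c' = 0`
    rcases h5 with h5 | ⟨h5, h6, h7⟩
    · have h8 : (d0 + d1) * (12 * h + 8) ≤ cw * (12 * h + 8) := Nat.mul_le_mul_right _ (by omega)
      nlinarith
    · omega
  · have hd0pos : 1 ≤ d0 := by omega
    have hd1pos : 1 ≤ d1 := by omega
    -- bb ≥ 1
    have hbb1 : 1 ≤ bb := by
      have h6 : finrank ℤ G0 < 3 := by
        obtain ⟨v, hv, hv0⟩ : ∃ v ∈ Af, v ≠ 0 := by
          apply Submodule.exists_mem_ne_zero_of_ne_bot
          intro hbot
          rw [hbot, finrank_bot] at hd0def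
          omega
        let f : (Fin 3 → ℤ) →+ ℂ := AddMonoidHom.mk' (fun s => ∑ i, v i * ∑ p, a i p * (s p : ℂ)) (by
          intro s s'
          simp only [Pi.add_apply, Int.cast_add, mul_add, Finset.sum_add_distrib])
        refine rank_lt G0 f (fun s hs => hG s hs v hv) ?_
        intro hf
        apply hv0
        apply ND1
        intro s
        exact DFunLike.congr_fun hf s
      omega
    have hmain : cw * (12 * h + 8) + bb * (4 * h + 4) ≤ d0 * (11 * h + 9) + d1 * (7 * h + 5) := by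
      rcases h5 with h5 | ⟨h5, -, -⟩ <;> omega
    have hnot : ¬ (bb = 0) := by omega
    have hlt : cw * (12 * h + 8) + bb * (4 * h + 4) < d0 * (11 * h + 9) + d1 * (7 * h + 5) := by
      rcases h5 with h5 | ⟨h5, -, h7⟩
      · exact h5
      · omega
    rcases Nat.lt_or_ge c' 2 with hc1 | hc2
    · -- `c' = 1`
      have hc1' : c' = 1 := by omega
      have h8 : (d0 + d1 - 1) * (12 * h + 8) ≤ cw * (12 * h + 8) :=
        Nat.mul_le_mul_right _ (by omega)
      rcases Nat.lt_or_ge d1 2 with hd | hd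
      · -- `d1 = 1`
        have hd1' : d1 = 1 := by omega
        -- a generator
        obtain ⟨ρ, hρ1, hρ2, hρ3⟩ := int_basis Rm
        have hi0 : (0 : ℕ) < finrank ℤ Rm := by omega
        set ρ0 := ρ ⟨0, hi0⟩ with hρ0
        have hρ0R : ρ0 ∈ Rm := hρ1 _
        have hρ00 : ρ0 ≠ 0 := hρ3.ne_zero _
        -- it lies in `Af`
        have hρA : (fun j => ((ρ0 j : ℤ) : ℂ)) ∈ Af := by
          have h9' : finrank ℂ N = finrank ℂ (kSpan ℂ Rm) := by
            rw [hks]
            omega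
          have h9 : N = kSpan ℂ Rm := Submodule.eq_of_le_of_finrank_eq inf_le_right h9'
          have h10 : (fun j => ((ρ0 j : ℤ) : ℂ)) ∈ N := by
            rw [h9]
            exact Submodule.subset_span ⟨ρ0, hρ0R, rfl⟩
          exact h10.1
        have h11 : finrank ℤ G0 ≤ 1 := by
          apply rank_le_one
          intro s hs s' hs'
          exact ND2 ρ0 hρ00 s s' (hG s hs _ hρA) (hG s' hs' _ hρA) (hG' s hs _ hρ0R)
            (hG' s' hs' _ hρ0R)
        have h12 : 2 ≤ bb := by omega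
        have h13 : 2 * (4 * h + 4) ≤ bb * (4 * h + 4) := Nat.mul_le_mul_right _ h12
        have h14 : d0 + d1 - 1 = d0 := by omega
        rw [h14] at h8
        rw [hd1'] at hlt
        nlinarith
      · have hd1' : d1 = 2 := by omega
        have h14 : d0 + d1 - 1 = d0 + 1 := by omega
        rw [h14] at h8
        rw [hd1'] at hlt
        have h13 : 1 * (4 * h + 4) ≤ bb * (4 * h + 4) := Nat.mul_le_mul_right _ hbb1
        nlinarith
    · -- `c' = 2`
      have hd0' : d0 = 2 := by omega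
      have hd1' : d1 = 2 := by omega
      have hAtop : Af = ⊤ := by
        apply Submodule.eq_top_of_finrank_eq
        rw [finrank_fintype_fun_eq_card, Fintype.card_fin]
        omega
      have hR : Pool.Agent.H301R2.ZG.ratSpan Rm = ⊤ :=
        ratSpan_eq_top_of_finrank (by rw [Fintype.card_fin]; omega)
      have h11 : finrank ℤ G0 = 0 := by
        apply rank_zero
        intro s hs
        apply ND3 s
        · intro i
          have h12 := hG s hs (Pi.single i 1) (by rw [hAtop]; trivial)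
          rw [Finset.sum_eq_single i] at h12
          · rwa [Pi.single_eq_same, one_mul] at h12
          · intro j _ hj
            rw [Pi.single_eq_of_ne hj, zero_mul]
          · intro h; exact absurd (Finset.mem_univ i) h
        · obtain ⟨N0, hN0', hm0⟩ := single_mem hR 0
          obtain ⟨N1, hN1', hm1⟩ := single_mem hR 1
          have k0 := hG' s hs _ hm0
          have k1 := hG' s hs _ hm1
          rw [Fin.prod_univ_two] at k0 k1
          simp at k0 k1
          refine ⟨N0 * N1, Nat.mul_pos hN0' hN1', fun j => ?_⟩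
          fin_cases j
          · simp only [Fin.zero_eta, Fin.isValue]
            rw [pow_mul, k0, one_pow]
          · simp only [Fin.mk_one, Fin.isValue]
            rw [mul_comm, pow_mul, k1, one_pow]
      have h12 : bb = 3 := by omega
      rw [h12, hd0', hd1'] at hlt
      have h13 : 2 * (12 * h + 8) ≤ cw * (12 * h + 8) := Nat.mul_le_mul_right _ (by omega)
      nlinarith

end Pool.Agent.H70.QL
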