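import Mathlib
import Pool.Agent.H70.QL.Contra23

/-!
The quantitative theorem for two rows and three points.
-/

set_option autoImplicit false

namespace Pool.Agent.H70.QL

open Finset Module Pool.Agent.H301R2.TR Pool.Agent.H335R2.Obs Pool.Agent.H301R2.SSE

/-- **Quantitative strong six exponentials theorem**, coordinate form. The numbers
`y p - ω 0 p` and `x0 y p - ω 1 p` have exponentials close to the algebraic numbers `χ 0 p`, `χ 1 p`,
and the numbers `ω i p` are close to the algebraic numbers `a i p`. -/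
theorem core23 (x0 : ℂ) (y : Fin 3 → ℂ) (ω : Fin 2 → Fin 3 → ℂ) (h Dg : ℕ) (hh : 1 ≤ h) :
    ∃ η : ℝ, 0 < η ∧ ∃ n0 : ℕ, ∀ n ≥ n0, ∀ (F : Type) [Field F] [NumberField F]
      (φ : F →ₐ[ℚ] ℂ), Module.finrank ℚ F ≤ Dg → ∀ (a χ : Fin 2 → Fin 3 → F) (d : ℕ) (R0 : ℝ),
      0 < d → 1 ≤ R0 → (d : ℝ) * R0 ≤ Real.exp (η * (n : ℝ) ^ h) →
      (∀ i p, IntD d 1 (a i p)) → (∀ j p, IntD d 1 (χ j p)) →
      (∀ τ : F →ₐ[ℚ] ℂ, (∀ i p, ‖τ (a i p)‖ ≤ R0) ∧ (∀ j p, ‖τ (χ j p)‖ ≤ R0)) →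
      (∀ j p, χ j p ≠ 0) →
      (∀ v : Fin 2 → ℂ, (∀ s : Fin 3 → ℤ, ∑ i, v i * ∑ p, φ (a i p) * (s p : ℂ) = 0) → v = 0) →
      (∀ m : Fin 2 → ℤ, m ≠ 0 → ∀ s s' : Fin 3 → ℤ,
        ∑ i, (m i : ℂ) * ∑ p, φ (a i p) * (s p : ℂ) = 0 →
        ∑ i, (m i : ℂ) * ∑ p, φ (a i p) * (s' p : ℂ) = 0 →
        ∏ j, (∏ p, φ (χ j p) ^ s p) ^ m j = 1 → ∏ j, (∏ p, φ (χ j p) ^ s' p) ^ m j = 1 →
        ∃ c c' : ℤ, ¬ (c = 0 ∧ c' = 0) ∧ c • s + c' • s' = 0) →
      (∀ s : Fin 3 → ℤ, (∀ i, ∑ p, φ (a i p) * (s p : ℂ) = 0) →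
        (∃ N : ℕ, 0 < N ∧ ∀ j, (∏ p, φ (χ j p) ^ s p) ^ N = 1) → s = 0) →
      (∀ i p, ‖φ (a i p) - ω i p‖ ≤ (1 / 4 : ℝ) ^ (n ^ (12 * h + 9))) →
      (∀ j p, ‖φ (χ j p) - Complex.exp ((![1, x0] : Fin 2 → ℂ) j * y p - ω j p)‖ ≤
        (1 / 4 : ℝ) ^ (n ^ (12 * h + 9))) → False := by
  classical
  obtain ⟨η, hη, n0, hn0⟩ := obstruction_pert (w := 2) (b := 2) (l := 3) (r := 1) Finset.univ
    (fun i j => ((gm i j : ℤ) : ℂ)) ω (fun _ => ![1, x0]) (fun _ => y)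
    (11 * h + 9) (7 * h + 5) (4 * h + 4) h 1 (12 * h + 8) (12 * h + 8) Dg
    (by ring) hh le_rfl (by omega) (by omega) (by simp; omega)
  refine ⟨η, hη, max n0 1, ?_⟩
  intro n hn F _ _ φ hDg a χ d R0 hd hR0 hdR0 da dχ hσ hχne ND1 ND2 ND3 ha hχ
  have hn1 : 1 ≤ n := (le_max_right _ _).trans hn
  obtain ⟨Af, Rm, W0, G0, -, h2, h3, h4, h5⟩ := hn0 n ((le_max_left _ _).trans hn) F φ hDg
    (fun i j => ((gm i j : ℤ) : F)) a χ 1 d 1 R0 one_pos hd le_rfl hR0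
    (by
      rw [Nat.cast_one, one_mul]
      apply Real.one_le_exp
      positivity)
    hdR0
    (by
      intro i j
      unfold IntD
      rw [Nat.cast_one, one_pow, one_mul]
      have := isIntegral_algebraMap (R := ℤ) (A := F) (x := gm i j)
      simpa using this)
    da dχ
    (by
      intro τ
      refine ⟨fun i j => ?_, (hσ τ).1, (hσ τ).2⟩
      rw [map_intCast, Complex.norm_intCast]
      unfold gm
      split_ifs <;> simp)
    hχne
    (by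
      intro i j
      rw [map_intCast, sub_self, norm_zero]
      positivity)
    (fun i _ p => ha i p)
    (by
      intro j p
      have e1 : (∑ ρ : Fin 1, (fun _ => ![1, x0] : Fin 1 → Fin 2 → ℂ) ρ j *
          (fun _ => y : Fin 1 → Fin 3 → ℂ) ρ p + ∑ i, ((gm i j : ℤ) : ℂ) * ω i p) =
          (![1, x0] : Fin 2 → ℂ) j * y p - ω j p := by
        rw [Fin.sum_univ_one, Finset.sum_eq_single j]
        · simp [gm]
          ring
        · intro i _ hi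
          simp [gm, hi]
        · intro h; exact absurd (Finset.mem_univ j) h
      rw [e1]
      exact hχ j p)
  refine contra23 h hh (fun i p => φ (a i p)) (fun j p => φ (χ j p)) ND1 ND2 ND3 Af Rm W0 G0 h2
    ?_ h4 h5
  intro c
  rw [h3 c]
  simp only [map_intCast]

/-- the shape of the data in our applications -/
theorem coreS (x0 : ℂ) (y : Fin 3 → ℂ) (ζ0 : ℂ) (h Dg : ℕ) (hh : 1 ≤ h) :
    ∃ η : ℝ, 0 < η ∧ ∃ n0 : ℕ, ∀ n ≥ n0, ∀ (F : Type) [Field F] [NumberField F]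
      (φ : F →ₐ[ℚ] ℂ), Module.finrank ℚ F ≤ Dg → ∀ (yI ζ : F) (χ : Fin 2 → Fin 3 → F) (d : ℕ)
      (R0 : ℝ), φ yI = Complex.I →
      0 < d → 1 ≤ R0 → (d : ℝ) * R0 ≤ Real.exp (η * (n : ℝ) ^ h) →
      IntD d 1 ζ → (∀ j p, IntD d 1 (χ j p)) →
      (∀ τ : F →ₐ[ℚ] ℂ, ‖τ ζ‖ ≤ R0 ∧ (∀ j p, ‖τ (χ j p)‖ ≤ R0)) →
      ζ ≠ 0 → (∀ j p, χ j p ≠ 0) → ‖φ (χ 1 0)‖ = 1 → 1 < ‖φ (χ 1 1)‖ →
      ‖φ ζ - ζ0‖ ≤ (1 / 4 : ℝ) ^ (n ^ (12 * h + 9)) →
      (∀ j p, ‖φ (χ j p) - Complex.exp ((![1, x0] : Fin 2 → ℂ) j * y p -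
        (![![Complex.I, -1, 0], ![0, 0, ζ0]] : Fin 2 → Fin 3 → ℂ) j p)‖ ≤
        (1 / 4 : ℝ) ^ (n ^ (12 * h + 9))) → False := by
  classical
  obtain ⟨η, hη, n0, hn0⟩ := core23 x0 y ![![Complex.I, -1, 0], ![0, 0, ζ0]] h Dg hh
  refine ⟨η, hη, n0, ?_⟩
  intro n hn F _ _ φ hDg yI ζ χ d R0 hI hd hR0 hdR0 dζ dχ hσ hζ0 hχne hχ10 hχ11 hζ hχ
  have hy2 : yI ^ 2 = -1 := by
    have h1 : φ (yI ^ 2) = φ (-1) := by rw [map_pow, hI, map_neg, map_one, Complex.I_sq]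
    exact (φ : F →+* ℂ).injective h1
  have hyint : IsIntegral ℤ yI := by
    refine ⟨Polynomial.X ^ 2 + 1, by monicity!, ?_⟩
    simp [hy2]
  have hσy : ∀ σ : F →ₐ[ℚ] ℂ, ‖σ yI‖ = 1 := by
    intro σ
    have h1 : (σ yI) ^ 2 = -1 := by rw [← map_pow, hy2, map_neg, map_one]
    have h2 : ‖σ yI‖ ^ 2 = 1 := by rw [← norm_pow, h1, norm_neg, norm_one]
    exact (pow_eq_one_iff_of_nonneg (norm_nonneg (σ yI)) (by norm_num)).mp h2
  have hε0 : (0 : ℝ) ≤ (1 / 4 : ℝ) ^ (n ^ (12 * h + 9)) := by positivity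
  have hφζ : φ ζ ≠ 0 := (map_ne_zero φ).mpr hζ0
  -- the additive forms
  have hform : ∀ (v : Fin 2 → ℂ) (s : Fin 3 → ℤ), ∑ i, v i * ∑ p,
      φ ((![![yI, -1, 0], ![0, 0, ζ]] : Fin 2 → Fin 3 → F) i p) * (s p : ℂ) =
      v 0 * (Complex.I * s 0 - s 1) + v 1 * (φ ζ * s 2) := by
    intro v s
    simp only [Fin.sum_univ_two, Fin.sum_univ_three]
    simp [hI]
    left; ring
  have hI0 : ∀ s0 s1 : ℤ, Complex.I * (s0 : ℂ) - (s1 : ℂ) = 0 → s0 = 0 ∧ s1 = 0 := by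
    intro s0 s1 h
    have h1 := congrArg Complex.re h
    have h2 := congrArg Complex.im h
    simp at h1 h2
    exact ⟨h2, h1⟩
  have hzero : ∀ s : Fin 3 → ℤ, s 0 = 0 → s 1 = 0 → s 2 = 0 → s = 0 := by
    intro s h0 h1 h2
    funext i
    fin_cases i
    · exact h0
    · exact h1
    · exact h2
  refine hn0 n hn F φ hDg ![![yI, -1, 0], ![0, 0, ζ]] χ d R0 hd hR0 hdR0 ?_ dχ ?_ hχne ?_ ?_ ?_
    ?_ hχ
  · intro i p
    have i0 : IntD d 1 (0 : F) := (IntD.of_int (d := d) isIntegral_zero).mono (by norm_num)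
    have i1 : IntD d 1 (-1 : F) := (IntD.of_int (d := d) (isIntegral_one.neg)).mono (by norm_num)
    have i2 : IntD d 1 yI := (IntD.of_int (d := d) hyint).mono (by norm_num)
    fin_cases i <;> fin_cases p
    · exact i2
    · exact i1
    · exact i0
    · exact i0
    · exact i0
    · exact dζ
  · intro τ
    refine ⟨fun i p => ?_, (hσ τ).2⟩
    fin_cases i <;> fin_cases p
    · change ‖τ yI‖ ≤ R0
      rw [hσy]; exact hR0
    · change ‖τ (-1)‖ ≤ R0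
      rw [map_neg, map_one, norm_neg, norm_one]; exact hR0
    · change ‖τ 0‖ ≤ R0
      rw [map_zero, norm_zero]; linarith
    · change ‖τ 0‖ ≤ R0
      rw [map_zero, norm_zero]; linarith
    · change ‖τ 0‖ ≤ R0
      rw [map_zero, norm_zero]; linarith
    · exact (hσ τ).1
  · -- ND1
    intro v hv
    have h1 := hv (Pi.single 0 1)
    have h2 := hv (Pi.single 2 1)
    rw [hform] at h1 h2
    simp at h1 h2
    funext i
    fin_cases i
    · exact h1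
    · rcases h2 with h2 | h2
      · exact h2
      · exact absurd h2 hζ0
  · -- ND2
    intro m hm s s' hs hs' hc hc'
    have e1 := hform (fun i => (m i : ℂ)) s
    have e2 := hform (fun i => (m i : ℂ)) s'
    rw [e1] at hs
    rw [e2] at hs'
    by_cases hm0 : m 0 = 0
    · -- the second row
      have hm1 : m 1 ≠ 0 := by
        intro h1
        apply hm
        funext i
        fin_cases i
        · exact hm0
        · exact h1
      have hm1' : ((m 1 : ℤ) : ℂ) ≠ 0 := by exact_mod_cast hm1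
      simp only [hm0, Int.cast_zero, zero_mul, zero_add] at hs hs'
      have key : ∀ s : Fin 3 → ℤ, ((m 1 : ℤ) : ℂ) * (φ ζ * (s 2 : ℂ)) = 0 →
          ∏ j, (∏ p, φ (χ j p) ^ s p) ^ m j = 1 → s 1 = 0 ∧ s 2 = 0 := by
        intro s hs hc
        have h2 : s 2 = 0 := by
          have := (mul_eq_zero.mp ((mul_eq_zero.mp hs).resolve_left hm1')).resolve_left hφζ
          exact_mod_cast this
        refine ⟨?_, h2⟩
        rw [Fin.prod_univ_two, hm0, zpow_zero, one_mul, Fin.prod_univ_three, h2, zpow_zero,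
          mul_one] at hc
        have h3 := congrArg norm hc
        rw [norm_zpow, norm_mul, norm_zpow, norm_zpow, hχ10, one_zpow, one_mul, norm_one,
          ← zpow_mul] at h3
        have h4 := (zpow_eq_one_iff_right₀ (norm_nonneg _) (ne_of_gt hχ11)).mp h3
        exact (mul_eq_zero.mp h4).resolve_right hm1
      obtain ⟨k1, k2⟩ := key s hs hc
      obtain ⟨k1', k2'⟩ := key s' hs' hc'
      by_cases h0 : s 0 = 0
      · exact ⟨1, 0, by simp, by rw [hzero s h0 k1 k2]; simp⟩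
      · refine ⟨s' 0, -(s 0), fun h => h0 (neg_eq_zero.mp h.2), ?_⟩
        apply hzero
        · simp; ring
        · simp [k1, k1']
        · simp [k2, k2']
    · have hm0' : ((m 0 : ℤ) : ℂ) ≠ 0 := by exact_mod_cast hm0
      by_cases h0 : s 2 = 0
      · refine ⟨1, 0, by simp, ?_⟩
        rw [h0] at hs
        simp only [Int.cast_zero, mul_zero, add_zero] at hs
        obtain ⟨k0, k1⟩ := hI0 _ _ ((mul_eq_zero.mp hs).resolve_left hm0')
        rw [hzero s k0 k1 h0]; simp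
      · refine ⟨s' 2, -(s 2), fun h => h0 (neg_eq_zero.mp h.2), ?_⟩
        have h1 : ((m 0 : ℤ) : ℂ) * (Complex.I * ((s' 2 * s 0 - s 2 * s' 0 : ℤ) : ℂ) -
            ((s' 2 * s 1 - s 2 * s' 1 : ℤ) : ℂ)) = 0 := by
          push_cast
          linear_combination (s' 2 : ℂ) * hs - (s 2 : ℂ) * hs'
        obtain ⟨k0, k1⟩ := hI0 _ _ ((mul_eq_zero.mp h1).resolve_left hm0')
        apply hzero
        · simp; linarith
        · simp; linarith
        · simp; ring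
  · -- ND3
    intro s hs _
    have e0 := hs 0
    have e1 := hs 1
    rw [Fin.sum_univ_three] at e0 e1
    simp [hI] at e0 e1
    have e0' : Complex.I * (s 0 : ℂ) - (s 1 : ℂ) = 0 := by linear_combination e0
    obtain ⟨k0, k1⟩ := hI0 _ _ e0'
    have k2 : s 2 = 0 := by
      rcases e1 with h | h
      · exact absurd h hζ0
      · exact h
    exact hzero s k0 k1 k2
  · intro i p
    fin_cases i <;> fin_cases p
    · change ‖φ yI - Complex.I‖ ≤ _
      rw [hI, sub_self, norm_zero]; exact hε0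
    · change ‖φ (-1) - (-1)‖ ≤ _
      rw [map_neg, map_one, sub_self, norm_zero]; exact hε0
    · change ‖φ 0 - 0‖ ≤ _
      rw [map_zero, sub_self, norm_zero]; exact hε0
    · change ‖φ 0 - 0‖ ≤ _
      rw [map_zero, sub_self, norm_zero]; exact hε0
    · change ‖φ 0 - 0‖ ≤ _
      rw [map_zero, sub_self, norm_zero]; exact hε0
    · exact hζ

end Pool.Agent.H70.QL
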