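import Mathlib

/-!
From the parametric form of the estimates to measures of approximation.
-/

set_option autoImplicit false

namespace Pool.Agent.H70.QL

theorem measure_of (X : Type) (G : ℕ → X → Prop) (err : X → ℝ) (a b' e : ℕ)
    (happ : ∀ κ : ℕ, 1 ≤ κ → ∃ η : ℝ, 0 < η ∧ ∃ n1 : ℕ, ∀ n ≥ n1, ∀ H : ℕ, 3 ≤ H →
      (H : ℝ) ^ e ≤ Real.exp (η * (n : ℝ) ^ κ) → ∀ x : X, G H x →
      err x ≤ (1 / 4 : ℝ) ^ (n ^ (a * κ + b')) → False)
    (τ : ℝ) (hτ : 0 < τ) : ∃ C : ℝ, 0 < C ∧ ∀ H : ℕ, 3 ≤ H → ∀ x : X, G H x →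
      Real.exp (-(C * Real.log H ^ ((a : ℝ) + τ))) ≤ err x := by
  set κ : ℕ := ⌈(b' : ℝ) / τ⌉₊ + 1 with hκ
  have hκ1 : 1 ≤ κ := by omega
  have hκ0 : (0 : ℝ) < κ := by exact_mod_cast hκ1
  have hκτ : (b' : ℝ) / (κ : ℝ) ≤ τ := by
    have h1 : (b' : ℝ) / τ ≤ κ := by
      have := Nat.le_ceil ((b' : ℝ) / τ)
      rw [hκ]; push_cast; linarith
    rw [div_le_iff₀ hτ] at h1
    rw [div_le_iff₀ hκ0]
    linarith
  obtain ⟨η, hη, n1, happ⟩ := happ κ hκ1
  have he0 : (0 : ℝ) ≤ e / η := by positivity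
  set M0 : ℝ := 1 + n1 + e / η with hM0
  have hn10 : (0 : ℝ) ≤ n1 := Nat.cast_nonneg _
  have hM01 : 1 ≤ M0 := by rw [hM0]; linarith
  have hM0n : (n1 : ℝ) ≤ M0 := by rw [hM0]; linarith
  have hM0C : e / η ≤ M0 := by rw [hM0]; linarith
  have hlog4 : 0 < Real.log 4 := Real.log_pos (by norm_num)
  set C : ℝ := (M0 + 1) ^ (a * κ + b') * Real.log 4 with hC
  have hCpos : 0 < C := by positivity
  refine ⟨C, hCpos, fun H hH x hx => ?_⟩
  by_contra hcon
  push Not at hcon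
  set L : ℝ := Real.log H with hL
  have hHpos : (0 : ℝ) < H := by
    have : 0 < H := by omega
    exact_mod_cast this
  have hH3 : (3 : ℝ) ≤ H := by exact_mod_cast hH
  have hL1 : 1 ≤ L := by
    rw [hL, ← Real.log_exp 1]
    apply Real.log_le_log (Real.exp_pos 1)
    have := Real.exp_one_lt_d9
    linarith
  have hL0 : 0 ≤ L := by linarith
  set r : ℝ := L ^ (1 / (κ : ℝ)) with hr
  have hr1 : 1 ≤ r := Real.one_le_rpow hL1 (by positivity)
  have hrκ : r ^ κ = L := by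
    rw [hr, ← Real.rpow_natCast, ← Real.rpow_mul hL0]
    rw [one_div, inv_mul_cancel₀ hκ0.ne', Real.rpow_one]
  set n : ℕ := ⌈M0 * r⌉₊ with hn
  have hnl : M0 * r ≤ n := Nat.le_ceil _
  have hnu : (n : ℝ) ≤ (M0 + 1) * r := by
    have := Nat.ceil_lt_add_one (a := M0 * r) (by positivity)
    rw [← hn] at this
    nlinarith
  have hM0r : M0 ≤ M0 * r := le_mul_of_one_le_right (by linarith) hr1
  have hnn1 : n1 ≤ n := by
    have : (n1 : ℝ) ≤ n := hM0n.trans (hM0r.trans hnl)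
    exact_mod_cast this
  have hnκ : M0 * L ≤ (n : ℝ) ^ κ := by
    calc M0 * L ≤ M0 ^ κ * L := by
          apply mul_le_mul_of_nonneg_right _ hL0
          exact le_self_pow₀ hM01 (by omega)
      _ = (M0 * r) ^ κ := by rw [mul_pow, hrκ]
      _ ≤ _ := pow_le_pow_left₀ (by positivity) hnl _
  have hHn : (H : ℝ) ^ e ≤ Real.exp (η * (n : ℝ) ^ κ) := by
    have e2 : (H : ℝ) ^ e = Real.exp (e * L) := by
      rw [Real.exp_nat_mul, hL, Real.exp_log hHpos]
    rw [e2]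
    apply Real.exp_le_exp.mpr
    calc e * L = η * (e / η * L) := by field_simp
      _ ≤ η * (M0 * L) := by gcongr
      _ ≤ _ := by gcongr
  have hQ : (n : ℝ) ^ (a * κ + b') ≤ (M0 + 1) ^ (a * κ + b') * L ^ ((a : ℝ) + τ) := by
    calc (n : ℝ) ^ (a * κ + b') ≤ ((M0 + 1) * r) ^ (a * κ + b') :=
          pow_le_pow_left₀ (Nat.cast_nonneg _) hnu _
      _ = (M0 + 1) ^ (a * κ + b') * r ^ (a * κ + b') := by rw [mul_pow]
      _ ≤ _ := by
        apply mul_le_mul_of_nonneg_left _ (by positivity)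
        rw [hr, ← Real.rpow_natCast, ← Real.rpow_mul hL0]
        apply Real.rpow_le_rpow_of_exponent_le hL1
        push_cast
        have : 1 / (κ : ℝ) * (a * κ + b') = a + b' / κ := by field_simp
        rw [this]
        linarith
  have hbound : Real.exp (-(C * L ^ ((a : ℝ) + τ))) ≤ (1 / 4 : ℝ) ^ (n ^ (a * κ + b')) := by
    have e1 : (1 / 4 : ℝ) ^ (n ^ (a * κ + b')) =
        Real.exp (-(Real.log 4 * (n : ℝ) ^ (a * κ + b'))) := by
      have e2 : ((n : ℝ) ^ (a * κ + b')) = ((n ^ (a * κ + b') : ℕ) : ℝ) := by push_cast; rfl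
      rw [Real.exp_neg, e2, mul_comm (Real.log 4), Real.exp_nat_mul, Real.exp_log (by norm_num),
        one_div, inv_pow]
    rw [e1]
    apply Real.exp_le_exp.mpr
    have e4 : C * L ^ ((a : ℝ) + τ) = (M0 + 1) ^ (a * κ + b') * L ^ ((a : ℝ) + τ) * Real.log 4 := by
      rw [hC]; ring
    have e6 : (n : ℝ) ^ (a * κ + b') * Real.log 4 ≤
        (M0 + 1) ^ (a * κ + b') * L ^ ((a : ℝ) + τ) * Real.log 4 :=
      mul_le_mul_of_nonneg_right hQ hlog4.le
    linarith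
  exact happ n hnn1 H hH hHn x hx (hcon.le.trans hbound)

end Pool.Agent.H70.QL
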