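import Mathlib
import Pool.Agent.H70.QL.Core23
import Pool.Agent.H70.QL.Measure
import Pool.Graph.R_pool_sql_team_seeded_1acbe0a2.Y928.QN.Rel

/-!
Simultaneous approximations of `π e`, `e ^ e`, `π ^ π` by algebraic numbers of bounded degree.
-/

set_option autoImplicit false

namespace Pool.Agent.H70.QL

open Finset Pool.Agent.H301R2.TR Pool.Agent.Y928.QN

theorem nrm (t : ℝ) (w : ℂ) (ht : 0 ≤ t) : |‖w‖ - t| ≤ ‖(t : ℂ) - w‖ := by
  have h1 := abs_norm_sub_norm_le w (t : ℂ)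
  rw [Complex.norm_real, Real.norm_eq_abs, abs_of_nonneg ht, norm_sub_rev] at h1
  exact h1

theorem intD_lift {F : Type*} [Field F] (d1 k : ℕ) (w : F) (h : IntD d1 1 w) :
    IntD (d1 * k) 1 w := by
  unfold IntD at *
  have e : (((d1 * k : ℕ) : F)) ^ 1 * w = (k : F) * ((d1 : F) ^ 1 * w) := by
    push_cast; ring
  rw [e]
  exact (isIntegral_natCast' k).mul h

/-- the error -/
noncomputable def errB (z : ℂ × ℂ × ℂ) : ℝ :=
  max ‖((Real.pi * Real.exp 1 : ℝ) : ℂ) - z.1‖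
    (max ‖((Real.exp 1 ^ Real.exp 1 : ℝ) : ℂ) - z.2.1‖ ‖((Real.pi ^ Real.pi : ℝ) : ℂ) - z.2.2‖)

theorem appB (D κ : ℕ) (hκ : 1 ≤ κ) : ∃ η : ℝ, 0 < η ∧ ∃ n1 : ℕ, ∀ n ≥ n1,
    ∀ H : ℕ, 3 ≤ H → (H : ℝ) ^ 5 ≤ Real.exp (η * (n : ℝ) ^ κ) → ∀ z : ℂ × ℂ × ℂ,
    (AlgHt D H z.1 ∧ AlgHt D H z.2.1 ∧ AlgHt D H z.2.2) →
    errB z ≤ (1 / 4 : ℝ) ^ (n ^ (12 * κ + 9)) → False := by
  classical
  have hpi := Real.pi_pos
  have hpi3 := Real.pi_gt_three
  have he1 : 2 < Real.exp 1 := by have := Real.exp_one_gt_d9; linarith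
  obtain ⟨η, hη, n0, hcore⟩ := coreS (Real.pi : ℂ)
    ![Complex.I, ((Real.log Real.pi : ℝ) : ℂ), ((Real.exp 1 : ℝ) : ℂ)]
    ((Real.pi * Real.exp 1 : ℝ) : ℂ) κ (2 * (D * (D * D))) hκ
  refine ⟨η, hη, n0, ?_⟩
  rintro n hn H hH hHn ⟨p, b, c⟩ ⟨hpd, hbd, hcd⟩ herr
  set P : ℝ := Real.pi * Real.exp 1 with hP
  set B : ℝ := Real.exp 1 ^ Real.exp 1 with hB
  set Q : ℝ := Real.pi ^ Real.pi with hQ
  unfold errB at herr
  simp only at herr hpd hbd hcd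
  rw [max_le_iff, max_le_iff] at herr
  obtain ⟨hp1, hb1, hc1⟩ := herr
  set ε : ℝ := (1 / 4 : ℝ) ^ (n ^ (12 * κ + 9)) with hε
  have hε0 : 0 < ε := by positivity
  have hε1 : ε ≤ 1 := pow_le_one₀ (by norm_num) (by norm_num)
  have hBe : B = Real.exp (Real.exp 1) := by
    rw [hB, ← Real.exp_one_rpow (Real.exp 1)]
  have hQe : Q = Real.exp (Real.pi * Real.log Real.pi) := by
    rw [hQ, Real.rpow_def_of_pos hpi, mul_comm]
  have hP1 : 3 ≤ P := by rw [hP]; nlinarith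
  have hB1 : 3 ≤ B := by
    rw [hBe]
    have := Real.add_one_le_exp (Real.exp 1)
    linarith
  have hQ1 : 3 ≤ Q := by
    rw [hQ]
    calc (3 : ℝ) ≤ Real.pi ^ (1 : ℝ) := by rw [Real.rpow_one]; linarith
      _ ≤ _ := Real.rpow_le_rpow_of_exponent_le (by linarith) (by linarith)
  have qp := nrm P p (by linarith)
  have qb := nrm B b (by linarith)
  have qc := nrm Q c (by linarith)
  have hpl : (2 : ℝ) ≤ ‖p‖ := by
    have := (abs_le.mp (qp.trans hp1)).1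
    linarith
  have hbl : (2 : ℝ) ≤ ‖b‖ := by
    have := (abs_le.mp (qb.trans hb1)).1
    linarith
  have hcl : (2 : ℝ) ≤ ‖c‖ := by
    have := (abs_le.mp (qc.trans hc1)).1
    linarith
  have ne0 : ∀ w : ℂ, 2 ≤ ‖w‖ → w ≠ 0 := by
    intro w hw h
    rw [h, norm_zero] at hw
    linarith
  -- the field elements
  obtain ⟨F, _, _, φ, hF, ⟨yI, hyI⟩, ⟨xp, hxp⟩, ⟨xb, hxb⟩, ⟨xc, hxc⟩⟩ :=
    exists_field_bounded hpd hbd hcd
  obtain ⟨dp, dp0, dpH, ip, cp⟩ := hpd.lift φ xp hxp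
  obtain ⟨db, db0, dbH, ib, cb⟩ := hbd.lift φ xb hxb
  obtain ⟨dc, dc0, dcH, ic, cc⟩ := hcd.lift φ xc hxc
  set d : ℕ := dp * (db * dc) with hd
  have hdpos : 0 < d := Nat.mul_pos dp0 (Nat.mul_pos db0 dc0)
  have hdH : (d : ℝ) ≤ (H : ℝ) ^ 3 := by
    have : d ≤ H ^ 3 := by
      calc d ≤ H * (H * H) := Nat.mul_le_mul dpH (Nat.mul_le_mul dbH dcH)
        _ = _ := by ring
    exact_mod_cast this
  have Ip : IntD d 1 xp := intD_lift _ _ _ ip
  have Ib : IntD d 1 xb := by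
    have := intD_lift db (dp * dc) xb ib
    have e : db * (dp * dc) = d := by rw [hd]; ring
    rwa [e] at this
  have Ic : IntD d 1 xc := by
    have := intD_lift dc (dp * db) xc ic
    have e : dc * (dp * db) = d := by rw [hd]; ring
    rwa [e] at this
  have I1 : IntD d 1 (1 : F) := (IntD.of_int (d := d) isIntegral_one).mono (by norm_num)
  have I2 : IntD d 1 (-1 : F) := (IntD.of_int (d := d) isIntegral_one.neg).mono (by norm_num)
  have hH3 : (3 : ℝ) ≤ H := by exact_mod_cast hH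
  have hR01 : (1 : ℝ) ≤ (H : ℝ) + 1 := by linarith
  have hdR : (d : ℝ) * ((H : ℝ) + 1) ≤ Real.exp (η * (n : ℝ) ^ κ) := by
    refine le_trans ?_ hHn
    have h4 : (H : ℝ) + 1 ≤ (H : ℝ) ^ 2 := by nlinarith
    calc (d : ℝ) * ((H : ℝ) + 1) ≤ (H : ℝ) ^ 3 * (H : ℝ) ^ 2 := by gcongr
      _ = _ := by ring
  refine hcore n hn F φ hF yI xp ![![1, xp, xb], ![-1, xc, 1]] d ((H : ℝ) + 1) hyI hdpos hR01 hdR
    Ip ?_ ?_ ?_ ?_ ?_ ?_ ?_ ?_
  · intro j p
    fin_cases j <;> fin_cases p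
    · exact I1
    · exact Ip
    · exact Ib
    · exact I2
    · exact Ic
    · exact I1
  · intro τ
    refine ⟨cp τ, fun j p => ?_⟩
    fin_cases j <;> fin_cases p
    · change ‖τ 1‖ ≤ _
      rw [map_one, norm_one]; exact hR01
    · exact cp τ
    · exact cb τ
    · change ‖τ (-1)‖ ≤ _
      rw [map_neg, map_one, norm_neg, norm_one]; exact hR01
    · exact cc τ
    · change ‖τ 1‖ ≤ _
      rw [map_one, norm_one]; exact hR01
  · intro h
    apply ne0 p hpl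
    rw [← hxp, h, map_zero]
  · intro j q
    fin_cases j <;> fin_cases q
    · exact one_ne_zero
    · change xp ≠ 0
      intro h
      apply ne0 p hpl
      rw [← hxp, h, map_zero]
    · change xb ≠ 0
      intro h
      apply ne0 b hbl
      rw [← hxb, h, map_zero]
    · exact neg_ne_zero.mpr one_ne_zero
    · change xc ≠ 0
      intro h
      apply ne0 c hcl
      rw [← hxc, h, map_zero]
    · exact one_ne_zero
  · change ‖φ (-1)‖ = 1
    rw [map_neg, map_one, norm_neg, norm_one]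
  · change 1 < ‖φ xc‖
    rw [hxc]; linarith
  · rw [hxp, ← norm_neg, neg_sub]; exact hp1
  · intro j q
    fin_cases j <;> fin_cases q
    · change ‖φ 1 - Complex.exp (1 * Complex.I - Complex.I)‖ ≤ _
      rw [map_one, one_mul, sub_self, Complex.exp_zero, sub_self, norm_zero]; exact hε0.le
    · change ‖φ xp - Complex.exp (1 * ((Real.log Real.pi : ℝ) : ℂ) - (-1))‖ ≤ _
      have e1 : Complex.exp (1 * ((Real.log Real.pi : ℝ) : ℂ) - (-1)) = ((P : ℝ) : ℂ) := by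
        have : (1 * ((Real.log Real.pi : ℝ) : ℂ) - (-1)) = ((Real.log Real.pi + 1 : ℝ) : ℂ) := by
          push_cast; ring
        rw [this, ← Complex.ofReal_exp, Real.exp_add, Real.exp_log hpi]
      rw [e1, hxp, ← norm_neg, neg_sub]; exact hp1
    · change ‖φ xb - Complex.exp (1 * ((Real.exp 1 : ℝ) : ℂ) - 0)‖ ≤ _
      have e1 : Complex.exp (1 * ((Real.exp 1 : ℝ) : ℂ) - 0) = ((B : ℝ) : ℂ) := by
        rw [one_mul, sub_zero, ← Complex.ofReal_exp, ← hBe]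
      rw [e1, hxb, ← norm_neg, neg_sub]; exact hb1
    · change ‖φ (-1) - Complex.exp ((Real.pi : ℂ) * Complex.I - 0)‖ ≤ _
      rw [sub_zero, Complex.exp_pi_mul_I, map_neg, map_one, sub_self, norm_zero]; exact hε0.le
    · change ‖φ xc - Complex.exp ((Real.pi : ℂ) * ((Real.log Real.pi : ℝ) : ℂ) - 0)‖ ≤ _
      have e1 : Complex.exp ((Real.pi : ℂ) * ((Real.log Real.pi : ℝ) : ℂ) - 0) = ((Q : ℝ) : ℂ) := by
        rw [sub_zero, ← Complex.ofReal_mul, ← Complex.ofReal_exp, ← hQe]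
      rw [e1, hxc, ← norm_neg, neg_sub]; exact hc1
    · change ‖φ 1 - Complex.exp ((Real.pi : ℂ) * ((Real.exp 1 : ℝ) : ℂ) -
        ((P : ℝ) : ℂ))‖ ≤ _
      rw [← Complex.ofReal_mul, ← hP, sub_self, Complex.exp_zero, map_one, sub_self, norm_zero]
      exact hε0.le

/-- simultaneous approximations of `π e`, `e ^ e`, `π ^ π` by algebraic numbers of bounded degree -/
theorem mainB (D : ℕ) (τ : ℝ) (hτ : 0 < τ) : ∃ C : ℝ, 0 < C ∧ ∀ H : ℕ, 3 ≤ H → ∀ p b c : ℂ,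
    AlgHt D H p → AlgHt D H b → AlgHt D H c →
    Real.exp (-(C * Real.log H ^ (12 + τ))) ≤ max ‖((Real.pi * Real.exp 1 : ℝ) : ℂ) - p‖
      (max ‖((Real.exp 1 ^ Real.exp 1 : ℝ) : ℂ) - b‖ ‖((Real.pi ^ Real.pi : ℝ) : ℂ) - c‖) := by
  obtain ⟨C, hC, h⟩ := measure_of (ℂ × ℂ × ℂ)
    (fun H z => AlgHt D H z.1 ∧ AlgHt D H z.2.1 ∧ AlgHt D H z.2.2) errB 12 9 5
    (fun κ hκ => appB D κ hκ) τ hτ
  refine ⟨C, hC, fun H hH p b c hp hb hc => ?_⟩
  have := h H hH (p, b, c) ⟨hp, hb, hc⟩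
  exact_mod_cast this

end Pool.Agent.H70.QL
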